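import Mathlib

/-! A zero estimate for polynomials in `x`, `e^x` in positive characteristic (truncated exponential). -/

set_option autoImplicit false

open Finset PowerSeries

namespace Pool.Agent.Z058

variable {K : Type*} [Field K]

lemma X_pow_dvd_deriv {f : K⟦X⟧} {N : ℕ} (h : (X : K⟦X⟧) ^ N ∣ f) : (X : K⟦X⟧) ^ (N - 1) ∣ d⁄dX K f := by
  rw [X_pow_dvd_iff] at h ⊢
  intro m hm
  rw [coeff_derivative, h (m + 1) (by omega), zero_mul]

/-- the operator `B ↦ B' + c B` -/
noncomputable def TT (c : K) (B : Polynomial K) : Polynomial K := Polynomial.derivative B + Polynomial.C c * B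

lemma TT_degree (c : K) (B : Polynomial K) (n : ℕ) (h : B.degree < (n : WithBot ℕ)) :
    (TT c B).degree < (n : WithBot ℕ) := by
  unfold TT
  refine lt_of_le_of_lt (Polynomial.degree_add_le _ _) (max_lt ?_ ?_)
  · exact lt_of_le_of_lt (Polynomial.degree_derivative_le) h
  · rw [← Polynomial.smul_eq_C_mul]
    exact lt_of_le_of_lt (Polynomial.degree_smul_le _ _) h

lemma TT_inj {c : K} (hc : c ≠ 0) {B : Polynomial K} (h : TT c B = 0) : B = 0 := by
  by_contra hB
  have h1 := congrArg (fun q => Polynomial.coeff q B.natDegree) h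
  unfold TT at h1
  simp only [Polynomial.coeff_add, Polynomial.coeff_derivative, Polynomial.coeff_C_mul, Polynomial.coeff_zero] at h1
  rw [Polynomial.coeff_eq_zero_of_natDegree_lt (Nat.lt_succ_self _), zero_mul, zero_add] at h1
  rcases mul_eq_zero.1 h1 with h2 | h2
  · exact hc h2
  · exact hB (Polynomial.leadingCoeff_eq_zero.1 h2)

lemma TT_iter_degree (c : K) (n i : ℕ) (B : Polynomial K) (h : B.degree < (n : WithBot ℕ)) :
    ((TT c)^[i] B).degree < (n : WithBot ℕ) := by
  induction i with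
  | zero => exact h
  | succ i ih => rw [Function.iterate_succ_apply']; exact TT_degree _ _ _ ih

lemma TT_iter_inj {c : K} (hc : c ≠ 0) (i : ℕ) {B : Polynomial K} (h : (TT c)^[i] B = 0) : B = 0 := by
  induction i with
  | zero => exact h
  | succ i ih => rw [Function.iterate_succ_apply'] at h; exact ih (TT_inj hc h)

lemma TT_zero_iter (i : ℕ) (B : Polynomial K) : (TT (0 : K))^[i] B = Polynomial.derivative^[i] B := by
  induction i with
  | zero => rfl
  | succ i ih => rw [Function.iterate_succ_apply', ih, Function.iterate_succ_apply']; simp [TT]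

lemma coe_zero_of_dvd {B : Polynomial K} {L N : ℕ} (hL : L ≤ N) (hd : B.degree < (L : WithBot ℕ))
    (h : (X : K⟦X⟧) ^ N ∣ (B : K⟦X⟧)) : B = 0 := by
  rw [X_pow_dvd_iff] at h
  ext m
  rw [Polynomial.coeff_zero]
  rcases Nat.lt_or_ge m L with h1 | h1
  · rw [← Polynomial.coeff_coe]; exact h m (by omega)
  · exact Polynomial.coeff_eq_zero_of_degree_lt (lt_of_lt_of_le hd (by exact_mod_cast h1))

/-- The zero estimate. `E' = E` modulo `x ^ M`. -/
theorem ze {E : K⟦X⟧} {M : ℕ} (hE : (X : K⟦X⟧) ^ M ∣ d⁄dX K E - E) (hE0 : constantCoeff E ≠ 0)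
    (L : ℕ) (hL : 1 ≤ L) (s : Finset ℕ) :
    ∀ (A : ℕ → Polynomial K), (∀ a ∈ s, ∀ b ∈ s, (a : K) = (b : K) → a = b) →
    (∀ f ∈ s, (A f).degree < (L : WithBot ℕ)) → s.card * L ≤ M + 1 →
    (X : K⟦X⟧) ^ (s.card * L) ∣ ∑ f ∈ s, (A f : K⟦X⟧) * E ^ f → ∀ f ∈ s, A f = 0 := by
  classical
  induction s using Finset.induction_on with
  | empty => intro A _ _ _ _ f hf; simp at hf
  | insert a s ha ih =>
    intro A hinj hdeg hM hdvd
    rw [card_insert_of_notMem ha] at hM hdvd
    set B : ℕ → ℕ → Polynomial K := fun i f => (TT ((f : K) - (a : K)))^[i] (A f) with hB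
    have key : ∀ i, (X : K⟦X⟧) ^ ((s.card + 1) * L - i) ∣ ∑ f ∈ insert a s, (B i f : K⟦X⟧) * E ^ f := by
      intro i
      induction i with
      | zero => exact hdvd
      | succ i ihi =>
        obtain ⟨r, hr⟩ := hE
        have hr' : d⁄dX K E = E + X ^ M * r := by rw [← hr]; ring
        set N := (s.card + 1) * L - i with hN
        have e1 := X_pow_dvd_deriv ihi
        have e2 : ∑ f ∈ insert a s, (B (i + 1) f : K⟦X⟧) * E ^ f =
            d⁄dX K (∑ f ∈ insert a s, (B i f : K⟦X⟧) * E ^ f) -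
            C (a : K) * (∑ f ∈ insert a s, (B i f : K⟦X⟧) * E ^ f) -
            X ^ M * (∑ f ∈ insert a s, (B i f : K⟦X⟧) * ((f : K⟦X⟧) * E ^ (f - 1)) * r) := by
          rw [map_sum, mul_sum, mul_sum, ← sum_sub_distrib, ← sum_sub_distrib]
          refine sum_congr rfl fun f hf => ?_
          have e3 : B (i + 1) f = TT ((f : K) - (a : K)) (B i f) := by
            simp only [hB]; rw [Function.iterate_succ_apply']
          rw [e3]
          unfold TT
          rw [Derivation.leibniz, derivative_coe, derivative_pow, hr', Polynomial.coe_add, Polynomial.coe_mul, Polynomial.coe_C]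
          have e4 : (C ((f : K) - (a : K)) : K⟦X⟧) = (f : K⟦X⟧) - C (a : K) := by
            rw [map_sub, map_natCast]
          rw [e4]
          simp only [smul_eq_mul]
          rcases Nat.eq_zero_or_pos f with h0 | h0
          · subst h0; simp only [Nat.cast_zero, pow_zero]; ring
          · obtain ⟨f', rfl⟩ : ∃ f', f = f' + 1 := ⟨f - 1, by omega⟩
            rw [Nat.add_sub_cancel]
            ring
        rw [e2]
        have hN1 : (s.card + 1) * L - (i + 1) = N - 1 := by omega
        rw [hN1]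
        refine dvd_sub (dvd_sub e1 ?_) ?_
        · exact Dvd.dvd.mul_left ((pow_dvd_pow _ (Nat.sub_le _ _)).trans ihi) _
        · exact Dvd.dvd.mul_right (pow_dvd_pow _ (by omega)) _
    have keyL := key L
    rw [sum_insert ha] at keyL
    have hBa : B L a = 0 := by
      simp only [hB]
      rw [sub_self, TT_zero_iter]
      refine Polynomial.iterate_derivative_eq_zero ?_
      by_cases h0 : A a = 0
      · rw [h0, Polynomial.natDegree_zero]; omega
      · rw [Polynomial.natDegree_lt_iff_degree_lt h0]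
        exact hdeg a (mem_insert_self _ _)
    rw [hBa, Polynomial.coe_zero, zero_mul, zero_add] at keyL
    have hexp : (s.card + 1) * L - L = s.card * L := by rw [add_mul, one_mul, Nat.add_sub_cancel]
    rw [hexp] at keyL
    have hs0 : ∀ f ∈ s, A f = 0 := by
      have h1 := ih (B L) (fun x hx y hy => hinj x (mem_insert_of_mem hx) y (mem_insert_of_mem hy))
        (fun f hf => TT_iter_degree _ _ _ _ (hdeg f (mem_insert_of_mem hf))) (by nlinarith) keyL
      intro f hf
      refine TT_iter_inj (c := (f : K) - (a : K)) ?_ L (h1 f hf)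
      intro h0
      have h2 := hinj f (mem_insert_of_mem hf) a (mem_insert_self _ _) (sub_eq_zero.1 h0)
      subst h2
      exact ha hf
    have hsum : ∑ f ∈ insert a s, (A f : K⟦X⟧) * E ^ f = (A a : K⟦X⟧) * E ^ a := by
      rw [sum_insert ha, sum_eq_zero, add_zero]
      intro f hf
      rw [hs0 f hf, Polynomial.coe_zero, zero_mul]
    rw [hsum] at hdvd
    have hunit : IsUnit (E ^ a) := by
      refine IsUnit.pow _ ?_
      rw [PowerSeries.isUnit_iff_constantCoeff]
      exact isUnit_iff_ne_zero.2 hE0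
    have hd2 : (X : K⟦X⟧) ^ ((s.card + 1) * L) ∣ (A a : K⟦X⟧) := by
      obtain ⟨u, hu⟩ := hunit
      rw [← hu] at hdvd
      exact (Units.dvd_mul_right).1 hdvd
    have hAa : A a = 0 := coe_zero_of_dvd (L := L) (by nlinarith) (hdeg a (mem_insert_self _ _)) hd2
    intro f hf
    rw [mem_insert] at hf
    rcases hf with rfl | hf
    · exact hAa
    · exact hs0 f hf

/-- `(Y - 1)^m (Y + 1)^(κ - m)`, `m ≤ κ`, are linearly independent. -/
lemma qq_indep (h2 : (2 : K) ≠ 0) (κ : ℕ) : ∀ β : ℕ → K,
    ∑ m ∈ range (κ + 1), Polynomial.C (β m) * ((Polynomial.X - 1) ^ m * (Polynomial.X + 1) ^ (κ - m)) = 0 →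
    ∀ m ≤ κ, β m = 0 := by
  induction κ with
  | zero =>
    intro β h m hm
    have : m = 0 := by omega
    subst this
    simpa using h
  | succ κ ih =>
    intro β h
    have h0 : β 0 = 0 := by
      have h1 := congrArg (Polynomial.eval 1) h
      rw [Polynomial.eval_finsetSum, sum_eq_single_of_mem 0 (by simp)] at h1
      · simp only [pow_zero, Nat.sub_zero, one_mul, Polynomial.eval_mul, Polynomial.eval_C, Polynomial.eval_pow,
          Polynomial.eval_add, Polynomial.eval_X, Polynomial.eval_one, Polynomial.eval_zero] at h1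
        rcases mul_eq_zero.1 h1 with h3 | h3
        · exact h3
        · exact absurd (pow_eq_zero_iff (by omega) |>.1 h3) (by rw [one_add_one_eq_two]; exact h2)
      · intro b hb hb0
        simp [hb0]
    rw [sum_range_succ', h0, Polynomial.C_0, zero_mul, add_zero] at h
    have h3 : (Polynomial.X - 1 : Polynomial K) * ∑ m ∈ range (κ + 1), Polynomial.C (β (m + 1)) *
        ((Polynomial.X - 1) ^ m * (Polynomial.X + 1) ^ (κ - m)) = 0 := by
      rw [← h, mul_sum]
      refine sum_congr rfl fun m hm => ?_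
      rw [Nat.add_sub_add_right, pow_succ]
      ring
    rcases mul_eq_zero.1 h3 with h4 | h4
    · exact absurd h4 (Polynomial.X_sub_C_ne_zero (1 : K))
    · have h5 := ih (fun m => β (m + 1)) h4
      intro m hm
      rcases Nat.eq_zero_or_pos m with h6 | h6
      · rw [h6]; exact h0
      · have := h5 (m - 1) (by omega)
        rwa [Nat.sub_add_cancel h6] at this

/-- Zero estimate for polynomials in `x` and `z = tanh (x / 2)`. -/
theorem ze_tanh {E z : K⟦X⟧} {M : ℕ} (hE : (X : K⟦X⟧) ^ M ∣ d⁄dX K E - E) (hE0 : constantCoeff E ≠ 0)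
    (hz : z * (E + 1) = E - 1) (h2 : (2 : K) ≠ 0)
    (L : ℕ) (hL : 1 ≤ L) (κ : ℕ) (hM : (κ + 1) * L ≤ M + 1)
    (hchar : ∀ a ≤ κ, ∀ b ≤ κ, (a : K) = (b : K) → a = b)
    (b : ℕ → Polynomial K) (hdeg : ∀ m ≤ κ, (b m).degree < (L : WithBot ℕ))
    (hdvd : (X : K⟦X⟧) ^ ((κ + 1) * L) ∣ ∑ m ∈ range (κ + 1), (b m : K⟦X⟧) * z ^ m) :
    ∀ m ≤ κ, b m = 0 := by
  set q : ℕ → Polynomial K := fun m => (Polynomial.X - 1) ^ m * (Polynomial.X + 1) ^ (κ - m) with hq
  have hqdeg : ∀ m ≤ κ, (q m).natDegree < κ + 1 := by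
    intro m hm
    refine Nat.lt_succ_of_le ((Polynomial.natDegree_mul_le).trans ?_)
    have h1 : ((Polynomial.X - 1 : Polynomial K) ^ m).natDegree ≤ m := by
      refine (Polynomial.natDegree_pow_le).trans ?_
      have : (Polynomial.X - 1 : Polynomial K).natDegree ≤ 1 := by
        rw [← Polynomial.C_1]; exact (Polynomial.natDegree_X_sub_C (1 : K)).le
      nlinarith
    have h1' : ((Polynomial.X + 1 : Polynomial K) ^ (κ - m)).natDegree ≤ κ - m := by
      refine (Polynomial.natDegree_pow_le).trans ?_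
      have : (Polynomial.X + 1 : Polynomial K).natDegree ≤ 1 := by
        rw [← Polynomial.C_1]; exact (Polynomial.natDegree_X_add_C (1 : K)).le
      nlinarith
    omega
  have hqE : ∀ m ≤ κ, ∑ f ∈ range (κ + 1), C ((q m).coeff f) * E ^ f = (E - 1) ^ m * (E + 1) ^ (κ - m) := by
    intro m hm
    have h1 := Polynomial.aeval_eq_sum_range' (hqdeg m hm) E
    have h3 : (Polynomial.aeval E) (q m) = (E - 1) ^ m * (E + 1) ^ (κ - m) := by
      simp [hq]
    rw [← h3, h1]
    refine sum_congr rfl fun f _ => ?_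
    rw [PowerSeries.smul_eq_C_mul]
  set A : ℕ → Polynomial K := fun f => ∑ m ∈ range (κ + 1), b m * Polynomial.C ((q m).coeff f) with hA
  have hAdeg : ∀ f, (A f).degree < (L : WithBot ℕ) := by
    intro f
    rw [hA]
    refine lt_of_le_of_lt (Polynomial.degree_sum_le _ _) ?_
    rw [Finset.sup_lt_iff (WithBot.bot_lt_coe _)]
    intro m hm
    rw [mem_range] at hm
    rw [mul_comm, ← Polynomial.smul_eq_C_mul]
    exact lt_of_le_of_lt (Polynomial.degree_smul_le _ _) (hdeg m (by omega))
  have hsum : ∑ f ∈ range (κ + 1), (A f : K⟦X⟧) * E ^ f =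
      (E + 1) ^ κ * ∑ m ∈ range (κ + 1), (b m : K⟦X⟧) * z ^ m := by
    have e1 : ∀ f, (A f : K⟦X⟧) * E ^ f = ∑ m ∈ range (κ + 1), (b m : K⟦X⟧) * (C ((q m).coeff f) * E ^ f) := by
      intro f
      have : (A f : K⟦X⟧) = ∑ m ∈ range (κ + 1), (b m : K⟦X⟧) * C ((q m).coeff f) := by
        have h7 : (A f : K⟦X⟧) = Polynomial.coeToPowerSeries.ringHom (A f) := rfl
        rw [h7, hA, map_sum]
        refine sum_congr rfl fun m _ => ?_
        rw [map_mul]
        simp
      rw [this, sum_mul]
      refine sum_congr rfl fun m _ => ?_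
      ring
    rw [sum_congr rfl (fun f _ => e1 f), sum_comm, mul_sum]
    refine sum_congr rfl fun m hm => ?_
    rw [mem_range] at hm
    rw [← mul_sum, hqE m (by omega)]
    have e2 : (E - 1) ^ m = z ^ m * (E + 1) ^ m := by rw [← hz, mul_pow]
    rw [e2]
    have e3 : (E + 1) ^ κ = (E + 1) ^ m * (E + 1) ^ (κ - m) := by rw [← pow_add]; congr 1; omega
    rw [e3]; ring
  have hA0 : ∀ f ∈ range (κ + 1), A f = 0 := by
    refine ze hE hE0 L hL (range (κ + 1)) A ?_ (fun f _ => hAdeg f) (by rw [card_range]; exact hM) ?_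
    · intro x hx y hy hxy
      rw [mem_range] at hx hy
      exact hchar x (by omega) y (by omega) hxy
    · rw [card_range, hsum]
      exact Dvd.dvd.mul_left hdvd _
  intro m hm
  ext l
  rw [Polynomial.coeff_zero]
  refine qq_indep h2 κ (fun m => (b m).coeff l) ?_ m hm
  ext f
  rw [Polynomial.finsetSum_coeff, Polynomial.coeff_zero]
  rcases Nat.lt_or_ge f (κ + 1) with h | h
  · have h1 := congrArg (fun P => Polynomial.coeff P l) (hA0 f (mem_range.2 h))
    simp only [hA, Polynomial.finsetSum_coeff, Polynomial.coeff_zero, Polynomial.coeff_mul_C] at h1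
    rw [← h1]
    refine sum_congr rfl fun m _ => ?_
    rw [Polynomial.coeff_C_mul]
  · refine sum_eq_zero fun m hm => ?_
    rw [mem_range] at hm
    have h8 : (q m).coeff f = 0 := Polynomial.coeff_eq_zero_of_natDegree_lt (lt_of_lt_of_le (hqdeg m (by omega)) h)
    rw [Polynomial.coeff_C_mul]
    change _ * (q m).coeff f = 0
    rw [h8, mul_zero]

end Pool.Agent.Z058
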