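import Mathlib
import Pool.Agent.X148.RegPerm
import Pool.Agent.Z058.ZE

/-! The truncated series `z = tanh (x / 2)`, `g = x coth (x / 2)` and their derivatives modulo `p`. -/

set_option autoImplicit false

open Finset PowerSeries Pool.Agent.H332R2 Pool.Agent.X148.RegPerm

namespace Pool.Agent.Z058

variable {p : ℕ} [hp : Fact p.Prime]

/-- truncated exponential -/
noncomputable def EE (p : ℕ) : PowerSeries (ZMod p) := PowerSeries.mk (fun k => fi p k)

/-- `(e^x - 1) / x` -/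
noncomputable def E2 (p : ℕ) : PowerSeries (ZMod p) := PowerSeries.mk (fun k => fi p (k + 1))

lemma fi_zero : fi p 0 = 1 := by simp [fi]

lemma fi_one : fi p 1 = 1 := by simp [fi]

lemma fi_mul {k : ℕ} (hk : k + 1 < p) : fi p (k + 1) * ((k : ZMod p) + 1) = fi p k := by
  unfold fi
  have h1 := fact_ne_zero (p := p) (k := k + 1) hk
  have h2 := fact_ne_zero (p := p) (k := k) (by omega)
  have h3 : (((k + 1).factorial : ℕ) : ZMod p) = ((k : ZMod p) + 1) * ((k.factorial : ℕ) : ZMod p) := by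
    rw [Nat.factorial_succ]; push_cast; ring
  rw [h3] at h1 ⊢
  have h4 : ((k : ZMod p) + 1) ≠ 0 := left_ne_zero_of_mul h1
  field_simp

lemma EE_deriv : (X : (ZMod p)⟦X⟧) ^ (p - 1) ∣ d⁄dX (ZMod p) (EE p) - EE p := by
  rw [X_pow_dvd_iff]
  intro m hm
  rw [map_sub, coeff_derivative, EE, coeff_mk, coeff_mk, fi_mul (by omega), sub_self]

lemma EE_const : constantCoeff (EE p) = 1 := by
  rw [← coeff_zero_eq_constantCoeff_apply, EE, coeff_mk, fi_zero]

lemma EE_sub : EE p - 1 = X * E2 p := by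
  ext m
  rcases m with _ | m
  · rw [map_sub, coeff_zero_X_mul, EE, coeff_mk, fi_zero]; simp
  · rw [map_sub, coeff_succ_X_mul, EE, E2, coeff_mk, coeff_mk]
    simp [coeff_one]

lemma EE_sub' : EE p - 1 = E1 p := by
  ext m
  rw [map_sub, EE, E1, coeff_mk, coeff_mk, coeff_one]
  split_ifs with h
  · subst h; rw [fi_zero, sub_self]
  · rw [sub_zero]

lemma E2_const : constantCoeff (E2 p) = 1 := by
  rw [← coeff_zero_eq_constantCoeff_apply, E2, coeff_mk, fi_one]

lemma two_ne (h3 : 3 ≤ p) : (2 : ZMod p) ≠ 0 := by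
  have := nat_ne_zero (p := p) (k := 2) (by norm_num) (by omega)
  exact_mod_cast this

lemma EEp_const : constantCoeff (EE p + 1) = (2 : ZMod p) := by
  rw [map_add, EE_const, map_one]; norm_num

/-- `tanh (x / 2) / x` -/
noncomputable def ζ (p : ℕ) [Fact p.Prime] : PowerSeries (ZMod p) := E2 p * (EE p + 1)⁻¹

/-- `tanh (x / 2)` -/
noncomputable def z (p : ℕ) [Fact p.Prime] : PowerSeries (ZMod p) := X * ζ p

/-- `x coth (x / 2)` -/
noncomputable def g (p : ℕ) [Fact p.Prime] : PowerSeries (ZMod p) := (ζ p)⁻¹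

lemma EEp_inv (h3 : 3 ≤ p) : (EE p + 1) * (EE p + 1)⁻¹ = 1 :=
  PowerSeries.mul_inv_cancel _ (by rw [EEp_const]; exact two_ne h3)

lemma ζ_mul (h3 : 3 ≤ p) : ζ p * (EE p + 1) = E2 p := by
  unfold ζ
  rw [mul_assoc, mul_comm _ (EE p + 1), EEp_inv h3, mul_one]

lemma z_mul (h3 : 3 ≤ p) : z p * (EE p + 1) = EE p - 1 := by
  unfold z
  rw [mul_assoc, ζ_mul h3, EE_sub]

lemma ζ_const (h3 : 3 ≤ p) : constantCoeff (ζ p) ≠ 0 := by
  intro h
  have h1 := congrArg (constantCoeff) (ζ_mul (p := p) h3)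
  rw [map_mul, h, zero_mul, E2_const] at h1
  exact zero_ne_one h1

lemma g_mul (h3 : 3 ≤ p) : g p * ζ p = 1 := by
  unfold g
  exact PowerSeries.inv_mul_cancel _ (ζ_const h3)

lemma X_dvd_z : (X : (ZMod p)⟦X⟧) ∣ z p := Dvd.intro _ rfl

/-- the operators on rows: `D_j = x^(j+1) (d/dx)^j coth (x/2)` -/
noncomputable def D (p : ℕ) [Fact p.Prime] : ℕ → PowerSeries (ZMod p)
  | 0 => g p
  | (j + 1) => X * d⁄dX (ZMod p) (D p j) - ((j : (ZMod p)⟦X⟧) + 1) * D p j

/-- `z^(j+1) (d/dx)^j (1/z)` as a polynomial in `z` -/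
noncomputable def V (p : ℕ) [Fact p.Prime] : ℕ → Polynomial (ZMod p)
  | 0 => 1
  | (j + 1) => Polynomial.C (2⁻¹ : ZMod p) * (1 - Polynomial.X ^ 2) *
      (Polynomial.X * Polynomial.derivative (V p j) - ((j : Polynomial (ZMod p)) + 1) * V p j)

/-- `(d/dx)^j z` as a polynomial in `z` -/
noncomputable def W (p : ℕ) [Fact p.Prime] : ℕ → Polynomial (ZMod p)
  | 0 => Polynomial.X
  | (j + 1) => Polynomial.C (2⁻¹ : ZMod p) * (1 - Polynomial.X ^ 2) * Polynomial.derivative (W p j)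

lemma z_deriv (h3 : 3 ≤ p) : (X : (ZMod p)⟦X⟧) ^ (p - 1) ∣ d⁄dX (ZMod p) (z p) - C (2⁻¹ : ZMod p) * (1 - z p ^ 2) := by
  obtain ⟨r, hr⟩ := EE_deriv (p := p)
  have hr' : d⁄dX (ZMod p) (EE p) = EE p + X ^ (p - 1) * r := by rw [← hr]; ring
  have h1 := congrArg (d⁄dX (ZMod p)) (z_mul (p := p) h3)
  rw [Derivation.leibniz, map_add, map_sub, hr'] at h1
  simp only [derivative_one, add_zero, sub_zero, smul_eq_mul] at h1
  have h0 := z_mul (p := p) h3
  have h2 : (C (2⁻¹ : ZMod p) : (ZMod p)⟦X⟧) * 2 = 1 := by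
    have : (2 : (ZMod p)⟦X⟧) = C (2 : ZMod p) := (map_ofNat _ 2).symm
    rw [this, ← map_mul, inv_mul_cancel₀ (two_ne h3), map_one]
  have h4 : (d⁄dX (ZMod p) (z p) - C (2⁻¹ : ZMod p) * (1 - z p ^ 2)) * (EE p + 1) = X ^ (p - 1) * (r * (1 - z p)) := by
    linear_combination h1 - (C (2⁻¹ : ZMod p) * (1 - z p)) * h0 - (EE p * (1 - z p)) * h2
  have h5 : d⁄dX (ZMod p) (z p) - C (2⁻¹ : ZMod p) * (1 - z p ^ 2) = X ^ (p - 1) * (r * (1 - z p) * (EE p + 1)⁻¹) := by
    rw [← mul_assoc, ← h4, mul_assoc, EEp_inv h3, mul_one]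
  rw [h5]
  exact Dvd.intro _ rfl

lemma D_dvd (h3 : 3 ≤ p) (j : ℕ) : (X : (ZMod p)⟦X⟧) ^ (p + j) ∣ D p j * z p ^ (j + 1) - X ^ (j + 1) * Polynomial.aeval (z p) (V p j) := by
  induction j with
  | zero =>
    have : D p 0 * z p ^ (0 + 1) - X ^ (0 + 1) * Polynomial.aeval (z p) (V p 0) = 0 := by
      simp only [D, V, map_one, z, zero_add, pow_one, mul_one]
      rw [mul_comm X (ζ p), ← mul_assoc, g_mul h3, one_mul, sub_self]
    rw [this]; exact dvd_zero _
  | succ j ih =>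
    obtain ⟨s, hs⟩ := z_deriv (p := p) h3
    have hs' : d⁄dX (ZMod p) (z p) = C (2⁻¹ : ZMod p) * (1 - z p ^ 2) + X ^ (p - 1) * s := by rw [← hs]; ring
    set e := D p j * z p ^ (j + 1) - X ^ (j + 1) * Polynomial.aeval (z p) (V p j) with he
    have hde := X_pow_dvd_deriv ih
    have hchain : d⁄dX (ZMod p) (Polynomial.aeval (z p) (V p j)) =
        Polynomial.aeval (z p) (Polynomial.derivative (V p j)) * d⁄dX (ZMod p) (z p) := by
      have := Derivation.comp_aeval_eq (a := z p) (derivative (ZMod p)) (V p j)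
      rw [this, smul_eq_mul]
    have e1 : d⁄dX (ZMod p) e = d⁄dX (ZMod p) (D p j) * z p ^ (j + 1) + D p j * (((j : (ZMod p)⟦X⟧) + 1) * z p ^ j * d⁄dX (ZMod p) (z p))
        - ((j : (ZMod p)⟦X⟧) + 1) * X ^ j * Polynomial.aeval (z p) (V p j)
        - X ^ (j + 1) * (Polynomial.aeval (z p) (Polynomial.derivative (V p j)) * d⁄dX (ZMod p) (z p)) := by
      rw [he, map_sub, Derivation.leibniz, Derivation.leibniz, hchain, derivative_pow, derivative_pow, derivative_X]
      simp only [smul_eq_mul, Nat.add_sub_cancel]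
      push_cast
      ring
    have e2 : D p (j + 1) * z p ^ (j + 1 + 1) - X ^ (j + 1 + 1) * Polynomial.aeval (z p) (V p (j + 1)) =
        z p * (X * d⁄dX (ZMod p) e) - ((j : (ZMod p)⟦X⟧) + 1) * (z p * e) - ((j : (ZMod p)⟦X⟧) + 1) * d⁄dX (ZMod p) (z p) * (X * e)
        + (X ^ (j + 1 + 1) * X ^ (p - 1)) * (s * (z p * Polynomial.aeval (z p) (Polynomial.derivative (V p j)) -
          ((j : (ZMod p)⟦X⟧) + 1) * Polynomial.aeval (z p) (V p j))) := by
      rw [e1]
      simp only [D, V, map_mul, map_sub, map_add, map_one, Polynomial.aeval_X, Polynomial.aeval_C, map_natCast, map_pow]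
      have e3 : (algebraMap (ZMod p) (ZMod p)⟦X⟧) (2⁻¹ : ZMod p) = C (2⁻¹ : ZMod p) := rfl
      rw [e3, he, hs']
      ring
    rw [e2]
    have d1 : (X : (ZMod p)⟦X⟧) ^ (p + (j + 1)) ∣ X * e := by
      rw [← add_assoc, pow_succ']; exact mul_dvd_mul_left _ ih
    have d2 : (X : (ZMod p)⟦X⟧) ^ (p + (j + 1)) ∣ z p * e := by
      rw [← add_assoc, pow_succ']; exact mul_dvd_mul X_dvd_z ih
    have hp1 := hp.out.one_lt
    have d3 : (X : (ZMod p)⟦X⟧) ^ (p + (j + 1)) ∣ z p * (X * d⁄dX (ZMod p) e) := by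
      have : p + (j + 1) = 1 + (1 + (p + j - 1)) := by omega
      rw [this, pow_add, pow_add, pow_one]
      exact mul_dvd_mul X_dvd_z (mul_dvd_mul_left _ hde)
    have d4 : (X : (ZMod p)⟦X⟧) ^ (p + (j + 1)) ∣ X ^ (j + 1 + 1) * X ^ (p - 1) := by
      rw [← pow_add]; exact pow_dvd_pow _ (by omega)
    refine dvd_add (dvd_sub (dvd_sub d3 ?_) ?_) ?_
    · exact Dvd.dvd.mul_left d2 _
    · exact Dvd.dvd.mul_left d1 _
    · exact Dvd.dvd.mul_right d4 _

/-- `ζ^(j+1) D_j = V_j(z)` -/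
lemma D_ζ (h3 : 3 ≤ p) (j : ℕ) : (X : (ZMod p)⟦X⟧) ^ (p - 1) ∣ D p j * ζ p ^ (j + 1) - Polynomial.aeval (z p) (V p j) := by
  have h1 := D_dvd (p := p) h3 j
  have hp1 := hp.out.one_lt
  have e1 : D p j * z p ^ (j + 1) - X ^ (j + 1) * Polynomial.aeval (z p) (V p j) =
      X ^ (j + 1) * (D p j * ζ p ^ (j + 1) - Polynomial.aeval (z p) (V p j)) := by
    have : z p ^ (j + 1) = X ^ (j + 1) * ζ p ^ (j + 1) := by rw [z, mul_pow]
    rw [this]; ring
  have e2 : p + j = (j + 1) + (p - 1) := by omega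
  rw [e1, e2, pow_add] at h1
  exact (mul_dvd_mul_iff_left (pow_ne_zero _ X_ne_zero)).1 h1

lemma z_iter (h3 : 3 ≤ p) (j : ℕ) (hj : j < p) : (X : (ZMod p)⟦X⟧) ^ (p - j) ∣ (d⁄dX (ZMod p))^[j] (z p) - Polynomial.aeval (z p) (W p j) := by
  induction j with
  | zero => simp [W]
  | succ j ih =>
    obtain ⟨s, hs⟩ := z_deriv (p := p) h3
    have hs' : d⁄dX (ZMod p) (z p) = C (2⁻¹ : ZMod p) * (1 - z p ^ 2) + X ^ (p - 1) * s := by rw [← hs]; ring
    have h1 := X_pow_dvd_deriv (ih (by omega))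
    have hchain : d⁄dX (ZMod p) (Polynomial.aeval (z p) (W p j)) =
        Polynomial.aeval (z p) (Polynomial.derivative (W p j)) * d⁄dX (ZMod p) (z p) := by
      have := Derivation.comp_aeval_eq (a := z p) (derivative (ZMod p)) (W p j)
      rw [this, smul_eq_mul]
    rw [map_sub, hchain, hs'] at h1
    have e2 : (d⁄dX (ZMod p))^[j + 1] (z p) - Polynomial.aeval (z p) (W p (j + 1)) =
        (d⁄dX (ZMod p) ((d⁄dX (ZMod p))^[j] (z p)) - Polynomial.aeval (z p) (Polynomial.derivative (W p j)) *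
          (C (2⁻¹ : ZMod p) * (1 - z p ^ 2) + X ^ (p - 1) * s))
        + X ^ (p - 1) * (Polynomial.aeval (z p) (Polynomial.derivative (W p j)) * s) := by
      rw [Function.iterate_succ_apply']
      simp only [W, map_mul, map_sub, map_one, Polynomial.aeval_X, Polynomial.aeval_C, map_pow]
      have e3 : (algebraMap (ZMod p) (ZMod p)⟦X⟧) (2⁻¹ : ZMod p) = C (2⁻¹ : ZMod p) := rfl
      rw [e3]
      ring
    rw [e2]
    refine dvd_add ?_ ?_
    · rw [show p - (j + 1) = p - j - 1 by omega]; exact h1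
    · exact Dvd.dvd.mul_right (pow_dvd_pow _ (by omega)) _

/-! ### coefficients -/

lemma g_eq_G (h3 : 3 ≤ p) : (X : (ZMod p)⟦X⟧) ^ (p - 1) ∣ G p - g p := by
  have h1 : (X : (ZMod p)⟦X⟧) ^ p ∣ G p * E1 p - (2 * X + X * E1 p) := by
    rw [X_pow_dvd_iff]
    intro m hm
    rw [map_sub, G_mul hm, sub_self]
  have h2 : g p * E1 p = X * (EE p + 1) := by
    rw [← EE_sub', EE_sub, ← ζ_mul h3]
    have := g_mul (p := p) h3
    linear_combination (X * (EE p + 1)) * this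
  have h4 : (X : (ZMod p)⟦X⟧) ^ p ∣ X * ((G p - g p) * E2 p) := by
    have : X * ((G p - g p) * E2 p) = G p * E1 p - (2 * X + X * E1 p) := by
      have e1 : (E1 p : (ZMod p)⟦X⟧) = X * E2 p := by rw [← EE_sub', EE_sub]
      have e2 : EE p + 1 = E1 p + 2 := by rw [← EE_sub']; ring
      rw [e2] at h2
      rw [show X * ((G p - g p) * E2 p) = G p * (X * E2 p) - g p * (X * E2 p) by ring, ← e1, h2]
      ring
    rw [this]; exact h1
  have hp1 := hp.out.one_lt
  have e3 : (X : (ZMod p)⟦X⟧) ^ p = X * X ^ (p - 1) := by rw [← pow_succ']; congr 1; omega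
  rw [e3] at h4
  have h5 := (mul_dvd_mul_iff_left X_ne_zero).1 h4
  have hu : IsUnit (E2 p) := by
    rw [PowerSeries.isUnit_iff_constantCoeff, E2_const]; exact isUnit_one
  obtain ⟨u, hu⟩ := hu
  rw [← hu] at h5
  exact (Units.dvd_mul_right).1 h5

lemma g_coeff (h3 : 3 ≤ p) {m : ℕ} (hm : m + 2 ≤ p) : coeff m (g p) = coeff m (G p) := by
  have h1 := g_eq_G (p := p) h3
  rw [X_pow_dvd_iff] at h1
  have := h1 m (by omega)
  rw [map_sub, sub_eq_zero] at this
  exact this.symm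

/-- the coefficient of `g` at `m` is zero unless `m` is even and `p` does not divide `B_m` -/
lemma g_zero (h3 : 3 ≤ p) {m : ℕ} (hm : m + 2 ≤ p) (h : coeff m (g p) ≠ 0) :
    ∃ i, m = 2 * i ∧ ¬ ((p : ℤ) ∣ (bernoulli (2 * i)).num) := by
  rw [g_coeff h3 hm] at h
  rcases Nat.even_or_odd' m with ⟨i, hi | hi⟩
  · refine ⟨i, hi, fun hd => h ?_⟩
    subst hi
    rw [G_even (even_two_mul i), (cc_eq_zero_iff hm h3).2 hd, mul_zero]
  · exact absurd (G_odd h3 ⟨i, hi⟩) h

/-- the coefficients of `D_j` -/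
lemma D_coeff_zero (j m : ℕ) (h : coeff m (g p) = 0) : coeff m (D p j) = 0 := by
  induction j with
  | zero => exact h
  | succ j ih =>
    rw [D, map_sub]
    have h1 : coeff m ((X : (ZMod p)⟦X⟧) * d⁄dX (ZMod p) (D p j)) = m * coeff m (D p j) := by
      rcases m with _ | m
      · simp
      · rw [coeff_succ_X_mul, coeff_derivative]; push_cast; ring
    have h2 : coeff m (((j : (ZMod p)⟦X⟧) + 1) * D p j) = ((j : ZMod p) + 1) * coeff m (D p j) := by
      have : ((j : (ZMod p)⟦X⟧) + 1) = C ((j : ZMod p) + 1) := by rw [map_add, map_natCast, map_one]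
      rw [this, coeff_C_mul]
    rw [h1, h2, ih]; ring

lemma D_coeff_small (j m : ℕ) (h1 : 1 ≤ m) (h2 : m ≤ j) : coeff m (D p j) = 0 := by
  induction j with
  | zero => omega
  | succ j ih =>
    rw [D, map_sub]
    have h3 : coeff m ((X : (ZMod p)⟦X⟧) * d⁄dX (ZMod p) (D p j)) = m * coeff m (D p j) := by
      rcases m with _ | m
      · simp
      · rw [coeff_succ_X_mul, coeff_derivative]; push_cast; ring
    have h4 : coeff m (((j : (ZMod p)⟦X⟧) + 1) * D p j) = ((j : ZMod p) + 1) * coeff m (D p j) := by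
      have : ((j : (ZMod p)⟦X⟧) + 1) = C ((j : ZMod p) + 1) := by rw [map_add, map_natCast, map_one]
      rw [this, coeff_C_mul]
    rw [h3, h4]
    rcases Nat.lt_or_ge j m with h5 | h5
    · have : m = j + 1 := by omega
      subst this; push_cast; ring
    · rw [ih h5]; ring

lemma fi_add {i j : ℕ} (h : i + j < p) : fi p i * fi p j = fi p (i + j) * (((i + j).choose i : ℕ) : ZMod p) := by
  unfold fi
  have h1 := fact_ne_zero (p := p) (k := i) (by omega)
  have h2 := fact_ne_zero (p := p) (k := j) (by omega)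
  have h3 := fact_ne_zero (p := p) (k := i + j) (by omega)
  have h4 : (((i + j).choose i : ℕ) : ZMod p) * ((i.factorial : ℕ) : ZMod p) * ((j.factorial : ℕ) : ZMod p) =
      (((i + j).factorial : ℕ) : ZMod p) := by
    have := Nat.add_choose_mul_factorial_mul_factorial i j
    rw [← Nat.choose_symm_add] at this
    exact_mod_cast congrArg (fun n : ℕ => (n : ZMod p)) this
  rw [← h4]
  have h5 : (((i + j).choose i : ℕ) : ZMod p) ≠ 0 := by
    intro h0; rw [h0] at h4; simp at h4; exact h3 h4.symm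
  field_simp

lemma EE_two : (X : (ZMod p)⟦X⟧) ^ p ∣ rescale (2 : ZMod p) (EE p) - EE p ^ 2 := by
  rw [X_pow_dvd_iff]
  intro m hm
  rw [map_sub, coeff_rescale, pow_two, coeff_mul, sub_eq_zero]
  simp only [EE, coeff_mk]
  have h1 : ∀ x ∈ antidiagonal m, fi p x.1 * fi p x.2 = fi p m * ((m.choose x.1 : ℕ) : ZMod p) := by
    intro x hx
    rw [HasAntidiagonal.mem_antidiagonal] at hx
    rw [fi_add (by omega), hx]
  rw [sum_congr rfl h1, ← mul_sum, Finset.Nat.sum_antidiagonal_eq_sum_range_succ_mk]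
  have h2 : ∑ k ∈ range (m + 1), ((m.choose k : ℕ) : ZMod p) = 2 ^ m := by
    have := Nat.sum_range_choose m
    exact_mod_cast congrArg (fun n : ℕ => (n : ZMod p)) this
  rw [Nat.succ_eq_add_one, h2, mul_comm]

lemma z_eq (h3 : 3 ≤ p) : (X : (ZMod p)⟦X⟧) ^ (p - 1) ∣ rescale (2 : ZMod p) (g p) - g p - X * z p := by
  have h2 : g p * (EE p - 1) = X * (EE p + 1) := by
    rw [EE_sub, ← ζ_mul h3]
    have := g_mul (p := p) h3
    linear_combination (X * (EE p + 1)) * this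
  have h0 := z_mul (p := p) h3
  have h4 := congrArg (rescale (2 : ZMod p)) h2
  rw [map_mul, map_mul, map_sub, map_add, map_one, rescale_X] at h4
  obtain ⟨r, hr⟩ := EE_two (p := p)
  have hr' : rescale (2 : ZMod p) (EE p) = EE p ^ 2 + X ^ p * r := by rw [← hr]; ring
  rw [hr'] at h4
  have hC : (C (2 : ZMod p) : (ZMod p)⟦X⟧) = 2 := map_ofNat _ 2
  rw [hC] at h4
  set g2 := rescale (2 : ZMod p) (g p) with hg2
  have h5 : (g2 - g p - X * z p) * (EE p ^ 2 - 1) = X ^ p * (2 * X * r - g2 * r) := by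
    linear_combination h4 - (EE p + 1) * h2 - X * (EE p - 1) * h0
  have h6 : EE p ^ 2 - 1 = X * (E2 p * (EE p + 1)) := by
    have := EE_sub (p := p)
    linear_combination (EE p + 1) * this
  have h7 : (X : (ZMod p)⟦X⟧) ^ p ∣ X * ((g2 - g p - X * z p) * (E2 p * (EE p + 1))) := by
    have : X * ((g2 - g p - X * z p) * (E2 p * (EE p + 1))) = (g2 - g p - X * z p) * (EE p ^ 2 - 1) := by
      rw [h6]; ring
    rw [this, h5]; exact Dvd.intro _ rfl
  have hp1 := hp.out.one_lt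
  have e3 : (X : (ZMod p)⟦X⟧) ^ p = X * X ^ (p - 1) := by rw [← pow_succ']; congr 1; omega
  rw [e3] at h7
  have h8 := (mul_dvd_mul_iff_left X_ne_zero).1 h7
  have hu : IsUnit (E2 p * (EE p + 1)) := by
    rw [PowerSeries.isUnit_iff_constantCoeff, map_mul, E2_const, EEp_const, one_mul]
    exact isUnit_iff_ne_zero.2 (two_ne h3)
  obtain ⟨u, hu⟩ := hu
  rw [← hu] at h8
  exact (Units.dvd_mul_right).1 h8

lemma z_coeff_zero (h3 : 3 ≤ p) {e : ℕ} (he : e + 3 ≤ p) (h : coeff (e + 1) (g p) = 0) : coeff e (z p) = 0 := by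
  have h1 := z_eq (p := p) h3
  rw [X_pow_dvd_iff] at h1
  have h2 := h1 (e + 1) (by omega)
  rw [map_sub, map_sub, coeff_rescale, h, coeff_succ_X_mul] at h2
  simpa using h2

lemma z_iter_coeff_zero (h3 : 3 ≤ p) {j e : ℕ} (he : e + j + 3 ≤ p) (h : coeff (e + j + 1) (g p) = 0) :
    coeff e ((d⁄dX (ZMod p))^[j] (z p)) = 0 := by
  rw [coeff_iterate_derivative, z_coeff_zero h3 (e := e + j) he h, mul_zero]

end Pool.Agent.Z058
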