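import Mathlib
import Pool.Agent.Z058.Ser

/-! Nonsingularity of the system formed with `1` and the derivatives of `coth (x/2)`, `tanh (x/2)` modulo `p`. -/

set_option autoImplicit false

open Finset PowerSeries Pool.Agent.H332R2 Pool.Agent.X148.RegPerm

namespace Pool.Agent.Z058

variable {p : ℕ} [hp : Fact p.Prime]

lemma half_ne (h3 : 3 ≤ p) : (2⁻¹ : ZMod p) ≠ 0 := inv_ne_zero (two_ne h3)

lemma V_coeff0 (h3 : 3 ≤ p) (j : ℕ) (hj : j < p) : (V p j).coeff 0 ≠ 0 := by
  induction j with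
  | zero => simp [V]
  | succ j ih =>
    have h1 : (V p (j + 1)).coeff 0 = - (2⁻¹ * (((j : ℕ) : ZMod p) + 1) * (V p j).coeff 0) := by
      rw [V, Polynomial.coeff_zero_eq_eval_zero, Polynomial.coeff_zero_eq_eval_zero]
      simp only [Polynomial.eval_mul, Polynomial.eval_C, Polynomial.eval_sub, Polynomial.eval_one, Polynomial.eval_pow,
        Polynomial.eval_X, Polynomial.eval_add, Polynomial.eval_natCast]
      ring
    rw [h1]
    refine neg_ne_zero.2 (mul_ne_zero (mul_ne_zero (half_ne h3) ?_) (ih (by omega)))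
    have := nat_ne_zero (p := p) (k := j + 1) (by omega) hj
    push_cast at this
    exact this

lemma V_high (j n : ℕ) (hn : j + 1 < n) : (V p j).coeff n = 0 := by
  induction j generalizing n with
  | zero => rw [V, Polynomial.coeff_one, if_neg (by omega)]
  | succ j ih =>
    have hU : ∀ m : ℕ, (Polynomial.X * Polynomial.derivative (V p j) - ((j : Polynomial (ZMod p)) + 1) * V p j).coeff m =
        ((m : ZMod p) - ((j : ZMod p) + 1)) * (V p j).coeff m := by
      intro m
      have e1 : ((j : Polynomial (ZMod p)) + 1) = Polynomial.C ((j : ZMod p) + 1) := by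
        rw [map_add, map_natCast, map_one]
      rw [Polynomial.coeff_sub, e1, Polynomial.coeff_C_mul]
      rcases m with _ | m
      · simp; ring
      · rw [Polynomial.coeff_X_mul, Polynomial.coeff_derivative]; push_cast; ring
    have hU0 : ∀ m : ℕ, j + 1 ≤ m → (Polynomial.X * Polynomial.derivative (V p j) - ((j : Polynomial (ZMod p)) + 1) * V p j).coeff m = 0 := by
      intro m hm
      rw [hU]
      rcases Nat.eq_or_lt_of_le hm with h | h
      · rw [← h]; push_cast; ring
      · rw [ih m h, mul_zero]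
    rw [V, mul_assoc, Polynomial.coeff_C_mul, sub_mul, one_mul, Polynomial.coeff_sub, hU0 n (by omega)]
    obtain ⟨n', rfl⟩ : ∃ n', n = n' + 2 := ⟨n - 2, by omega⟩
    rw [Polynomial.coeff_X_pow_mul, hU0 n' (by omega)]
    ring

lemma W_high (j n : ℕ) (hn : j + 1 < n) : (W p j).coeff n = 0 := by
  induction j generalizing n with
  | zero => rw [W, Polynomial.coeff_X, if_neg (by omega)]
  | succ j ih =>
    rw [W, mul_assoc, Polynomial.coeff_C_mul, sub_mul, one_mul, Polynomial.coeff_sub]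
    obtain ⟨n', rfl⟩ : ∃ n', n = n' + 2 := ⟨n - 2, by omega⟩
    rw [Polynomial.coeff_X_pow_mul, Polynomial.coeff_derivative, Polynomial.coeff_derivative, ih _ (by omega), ih _ (by omega)]
    ring

lemma W_top (h3 : 3 ≤ p) (j : ℕ) (hj : j < p) : (W p j).coeff (j + 1) ≠ 0 := by
  induction j with
  | zero => simp [W]
  | succ j ih =>
    have h1 : (W p (j + 1)).coeff (j + 1 + 1) = - (2⁻¹ * (((j : ℕ) : ZMod p) + 1) * (W p j).coeff (j + 1)) := by
      rw [W, mul_assoc, Polynomial.coeff_C_mul, sub_mul, one_mul, Polynomial.coeff_sub]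
      rw [show j + 1 + 1 = j + 2 by rfl, Polynomial.coeff_X_pow_mul, Polynomial.coeff_derivative, Polynomial.coeff_derivative,
        W_high j (j + 2 + 1) (by omega)]
      ring
    rw [h1]
    refine neg_ne_zero.2 (mul_ne_zero (mul_ne_zero (half_ne h3) ?_) (ih (by omega)))
    have := nat_ne_zero (p := p) (k := j + 1) (by omega) hj
    push_cast at this
    exact this

/-- the columns -/
noncomputable def Θ (p : ℕ) [Fact p.Prime] (k c : ℕ) : PowerSeries (ZMod p) :=
  if c < k then X ^ c * D p (k - 1 - c) else if c = k then X ^ k else X ^ k * (d⁄dX (ZMod p))^[c - k - 1] (z p)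

/-- the corresponding polynomials in `z` -/
noncomputable def RR (p : ℕ) [Fact p.Prime] (k c : ℕ) : Polynomial (ZMod p) :=
  if c < k then Polynomial.X ^ c * V p (k - 1 - c) else if c = k then Polynomial.X ^ k
    else Polynomial.X ^ k * W p (c - k - 1)

lemma RR_low {k c n : ℕ} (hn : n < c) (hn2 : n < k) : (RR p k c).coeff n = 0 := by
  unfold RR
  split_ifs with h1 h2
  · rw [Polynomial.coeff_X_pow_mul', if_neg (by omega)]
  · rw [Polynomial.coeff_X_pow, if_neg (by omega)]
  · rw [Polynomial.coeff_X_pow_mul', if_neg (by omega)]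

lemma RR_diag (h3 : 3 ≤ p) {k c : ℕ} (hk : k < p) (hc : c < k + p) : (RR p k c).coeff c ≠ 0 := by
  unfold RR
  split_ifs with h1 h2
  · rw [Polynomial.coeff_X_pow_mul', if_pos le_rfl, Nat.sub_self]
    exact V_coeff0 h3 _ (by omega)
  · subst h2; rw [Polynomial.coeff_X_pow, if_pos rfl]; exact one_ne_zero
  · rw [Polynomial.coeff_X_pow_mul', if_pos (by omega), show c - k = (c - k - 1) + 1 by omega]
    simp only [Nat.add_sub_cancel]
    exact W_top h3 _ (by omega)

lemma RR_high {k c n : ℕ} (hn : c < n) (hn2 : k < n) : (RR p k c).coeff n = 0 := by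
  unfold RR
  split_ifs with h1 h2
  · rw [Polynomial.coeff_X_pow_mul', if_pos (by omega)]
    exact V_high _ _ (by omega)
  · rw [Polynomial.coeff_X_pow, if_neg (by omega)]
  · rw [Polynomial.coeff_X_pow_mul', if_pos (by omega)]
    exact W_high _ _ (by omega)

lemma RR_indep (h3 : 3 ≤ p) {k κ : ℕ} (hk : k ≤ κ) (hκ : κ < p) (β : ℕ → ZMod p)
    (h : ∑ c ∈ range (κ + 1), Polynomial.C (β c) * RR p k c = 0) : ∀ c ≤ κ, β c = 0 := by
  have hco : ∀ n, ∑ c ∈ range (κ + 1), β c * (RR p k c).coeff n = 0 := by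
    intro n
    have := congrArg (fun P => Polynomial.coeff P n) h
    simpa [Polynomial.finsetSum_coeff] using this
  have hlow : ∀ c, c < k → β c = 0 := by
    intro c
    induction c using Nat.strong_induction_on with
    | _ c ih =>
      intro hc
      have h1 := hco c
      rw [sum_eq_single_of_mem c (mem_range.2 (by omega))] at h1
      · exact (mul_eq_zero.1 h1).resolve_right (RR_diag h3 (by omega) (by omega))
      · intro b hb hbc
        rcases lt_or_gt_of_ne hbc with h2 | h2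
        · rw [ih b h2 (by omega), zero_mul]
        · rw [RR_low h2 hc, mul_zero]
  have hhigh : ∀ d c, c + d = κ → k ≤ c → β c = 0 := by
    intro d
    induction d using Nat.strong_induction_on with
    | _ d ih =>
      intro c hcd hkc
      have h1 := hco c
      rw [sum_eq_single_of_mem c (mem_range.2 (by omega))] at h1
      · exact (mul_eq_zero.1 h1).resolve_right (RR_diag h3 (by omega) (by omega))
      · intro b hb hbc
        rw [mem_range] at hb
        rcases lt_or_gt_of_ne hbc with h2 | h2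
        · rcases Nat.lt_or_ge b k with h4 | h4
          · rw [hlow b h4, zero_mul]
          · rw [RR_high h2 (by omega), mul_zero]
        · rw [ih (κ - b) (by omega) b (by omega) (by omega), zero_mul]
  intro c hc
  rcases Nat.lt_or_ge c k with h4 | h4
  · exact hlow c h4
  · exact hhigh (κ - c) c (by omega) h4

lemma Θ_RR (h3 : 3 ≤ p) {k k' c N : ℕ} (hk' : k' ≤ k) (hc : c ≤ k + k') (hN : N < p) (hkp : k < p) :
    (X : (ZMod p)⟦X⟧) ^ N ∣ ζ p ^ k * Θ p k c - Polynomial.aeval (z p) (RR p k c) := by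
  unfold Θ RR
  split_ifs with h1 h2
  · have e1 : ζ p ^ k * (X ^ c * D p (k - 1 - c)) - Polynomial.aeval (z p) (Polynomial.X ^ c * V p (k - 1 - c)) =
        z p ^ c * (D p (k - 1 - c) * ζ p ^ (k - 1 - c + 1) - Polynomial.aeval (z p) (V p (k - 1 - c))) := by
      rw [map_mul, map_pow, Polynomial.aeval_X]
      have e2 : ζ p ^ k = ζ p ^ c * ζ p ^ (k - 1 - c + 1) := by rw [← pow_add]; congr 1; omega
      rw [e2]
      have e3 : z p ^ c = X ^ c * ζ p ^ c := by rw [z, mul_pow]
      rw [e3]; ring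
    rw [e1]
    exact Dvd.dvd.mul_left ((pow_dvd_pow _ (by omega)).trans (D_ζ h3 _)) _
  · have e1 : ζ p ^ k * X ^ k - Polynomial.aeval (z p) (Polynomial.X ^ k : Polynomial (ZMod p)) = 0 := by
      rw [map_pow, Polynomial.aeval_X, z, mul_pow]; ring
    rw [e1]; exact dvd_zero _
  · have e1 : ζ p ^ k * (X ^ k * (d⁄dX (ZMod p))^[c - k - 1] (z p)) -
        Polynomial.aeval (z p) (Polynomial.X ^ k * W p (c - k - 1)) =
        X ^ k * (((d⁄dX (ZMod p))^[c - k - 1] (z p)) - Polynomial.aeval (z p) (W p (c - k - 1))) * ζ p ^ k := by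
      rw [map_mul, map_pow, Polynomial.aeval_X]
      have e3 : z p ^ k = X ^ k * ζ p ^ k := by rw [z, mul_pow]
      rw [e3]; ring
    rw [e1]
    refine Dvd.dvd.mul_right ?_ _
    have h4 := mul_dvd_mul_left ((X : (ZMod p)⟦X⟧) ^ k) (z_iter (p := p) h3 (c - k - 1) (by omega))
    refine Dvd.dvd.trans ?_ h4
    rw [← pow_add]
    exact pow_dvd_pow _ (by omega)

/-- Nonsingularity: the rows `x^0, …, x^((k+k'+1) L - 1)`. -/
theorem nv (h3 : 3 ≤ p) {k k' L : ℕ} (hk' : k' ≤ k) (hL : 1 ≤ L) (hp' : (k + k' + 1) * L < p)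
    (Q : ℕ → Polynomial (ZMod p)) (hdeg : ∀ c ≤ k + k', (Q c).degree < (L : WithBot ℕ))
    (hdvd : (X : (ZMod p)⟦X⟧) ^ ((k + k' + 1) * L) ∣ ∑ c ∈ range (k + k' + 1), (Q c : (ZMod p)⟦X⟧) * Θ p k c) :
    ∀ c ≤ k + k', Q c = 0 := by
  set κ := k + k' with hκ
  have hκp : κ < p := by nlinarith
  have hkp : k < p := by omega
  have hRn : ∀ c ≤ κ, (RR p k c).natDegree < κ + 1 := by
    intro c hc
    refine Nat.lt_succ_of_le (Polynomial.natDegree_le_iff_coeff_eq_zero.2 fun n hn => RR_high (by omega) (by omega))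
  -- multiply with `ζ ^ k`
  have h1 : (X : (ZMod p)⟦X⟧) ^ ((κ + 1) * L) ∣ ∑ c ∈ range (κ + 1), (Q c : (ZMod p)⟦X⟧) * Polynomial.aeval (z p) (RR p k c) := by
    have e1 : ∑ c ∈ range (κ + 1), (Q c : (ZMod p)⟦X⟧) * Polynomial.aeval (z p) (RR p k c) =
        ζ p ^ k * ∑ c ∈ range (κ + 1), (Q c : (ZMod p)⟦X⟧) * Θ p k c -
        ∑ c ∈ range (κ + 1), (Q c : (ZMod p)⟦X⟧) * (ζ p ^ k * Θ p k c - Polynomial.aeval (z p) (RR p k c)) := by
      rw [mul_sum, ← sum_sub_distrib]
      refine sum_congr rfl fun c _ => ?_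
      ring
    rw [e1]
    refine dvd_sub (Dvd.dvd.mul_left hdvd _) (dvd_sum fun c hc => ?_)
    rw [mem_range] at hc
    exact Dvd.dvd.mul_left (Θ_RR h3 hk' (by omega) hp' hkp) _
  set b : ℕ → Polynomial (ZMod p) := fun m => ∑ c ∈ range (κ + 1), Q c * Polynomial.C ((RR p k c).coeff m) with hb
  have hbdeg : ∀ m, (b m).degree < (L : WithBot ℕ) := by
    intro m
    rw [hb]
    refine lt_of_le_of_lt (Polynomial.degree_sum_le _ _) ?_
    rw [Finset.sup_lt_iff (WithBot.bot_lt_coe _)]
    intro c hc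
    rw [mem_range] at hc
    rw [mul_comm, ← Polynomial.smul_eq_C_mul]
    exact lt_of_le_of_lt (Polynomial.degree_smul_le _ _) (hdeg c (by omega))
  have hsum : ∑ m ∈ range (κ + 1), (b m : (ZMod p)⟦X⟧) * z p ^ m =
      ∑ c ∈ range (κ + 1), (Q c : (ZMod p)⟦X⟧) * Polynomial.aeval (z p) (RR p k c) := by
    have e1 : ∀ m, (b m : (ZMod p)⟦X⟧) * z p ^ m = ∑ c ∈ range (κ + 1), (Q c : (ZMod p)⟦X⟧) * (C ((RR p k c).coeff m) * z p ^ m) := by
      intro m
      have : (b m : (ZMod p)⟦X⟧) = ∑ c ∈ range (κ + 1), (Q c : (ZMod p)⟦X⟧) * C ((RR p k c).coeff m) := by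
        have h7 : (b m : (ZMod p)⟦X⟧) = Polynomial.coeToPowerSeries.ringHom (b m) := rfl
        rw [h7, hb, map_sum]
        refine sum_congr rfl fun c _ => ?_
        rw [map_mul]
        simp
      rw [this, sum_mul]
      refine sum_congr rfl fun c _ => ?_
      ring
    rw [sum_congr rfl (fun m _ => e1 m), sum_comm]
    refine sum_congr rfl fun c hc => ?_
    rw [mem_range] at hc
    rw [← mul_sum]
    congr 1
    rw [Polynomial.aeval_eq_sum_range' (hRn c (by omega)) (z p)]
    refine sum_congr rfl fun m _ => ?_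
    rw [PowerSeries.smul_eq_C_mul]
  have hchar : ∀ a ≤ κ, ∀ b ≤ κ, (a : ZMod p) = (b : ZMod p) → a = b := by
    intro a ha b hb hab
    rw [ZMod.natCast_eq_natCast_iff'] at hab
    rwa [Nat.mod_eq_of_lt (by omega), Nat.mod_eq_of_lt (by omega)] at hab
  have hb0 := ze_tanh (EE_deriv (p := p)) (by rw [EE_const]; exact one_ne_zero) (z_mul h3) (two_ne h3) L hL κ (by omega)
    hchar b (fun m _ => hbdeg m) (by rw [hsum]; exact h1)
  intro c hc
  ext l
  rw [Polynomial.coeff_zero]
  refine RR_indep h3 (k := k) (κ := κ) (by omega) hκp (fun c => (Q c).coeff l) ?_ c hc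
  ext m
  rw [Polynomial.finsetSum_coeff, Polynomial.coeff_zero]
  rcases Nat.lt_or_ge m (κ + 1) with h | h
  · have h1 := congrArg (fun P => Polynomial.coeff P l) (hb0 m (by omega))
    simp only [hb, Polynomial.finsetSum_coeff, Polynomial.coeff_zero, Polynomial.coeff_mul_C] at h1
    rw [← h1]
    refine sum_congr rfl fun c _ => ?_
    rw [Polynomial.coeff_C_mul]
  · refine sum_eq_zero fun c hc => ?_
    rw [mem_range] at hc
    have h8 : (RR p k c).coeff m = 0 := RR_high (by omega) (by omega)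
    rw [Polynomial.coeff_C_mul, h8, mul_zero]

end Pool.Agent.Z058
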