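import Mathlib
import Pool.Agent.Z058.NV

/-! Perfect matchings by regular indices. -/

set_option autoImplicit false

open Finset PowerSeries Pool.Agent.H332R2 Pool.Agent.X148.RegPerm

namespace Pool.Agent.Z058

variable {p : ℕ} [hp : Fact p.Prime]

/-- `m - σ` is twice a positive regular index -/
def Reg (p m σ : ℕ) : Prop := ∃ i : ℕ, 0 < i ∧ m = σ + 2 * i ∧ ¬ ((p : ℤ) ∣ (bernoulli (2 * i)).num)

/-- the shift of the column `x ^ l Θ_c` -/
def sh (k c l : ℕ) : ℕ := if c < k then c + l else 2 * k - c + l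

/-- where the columns can be nonzero -/
lemma entry (h3 : 3 ≤ p) {k k' c l m : ℕ} (hk' : k' ≤ k) (hc : c ≤ k + k') (hm : m + 2 ≤ p)
    (h : coeff m (X ^ l * Θ p k c) ≠ 0) :
    (m = sh k c l ∧ c ≤ k) ∨ (Reg p m (sh k c l) ∧ k ≤ m ∧ c ≠ k) := by
  unfold sh
  rw [coeff_X_pow_mul'] at h
  split_ifs at h with h0
  · unfold Θ at h
    split_ifs at h with h1 h2
    · rw [if_pos h1]
      rw [coeff_X_pow_mul'] at h
      split_ifs at h with h4
      · by_cases hg : coeff (m - l - c) (g p) = 0
        · exact absurd (D_coeff_zero _ _ hg) h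
        · obtain ⟨i, hi, hr⟩ := g_zero h3 (by omega) hg
          rcases Nat.eq_zero_or_pos i with h5 | h5
          · left; omega
          · right
            refine ⟨⟨i, h5, by omega, hr⟩, ?_, by omega⟩
            by_contra h6
            exact h (D_coeff_small _ _ (by omega) (by omega))
      · exact absurd rfl h
    · subst h2
      rw [coeff_X_pow] at h
      split_ifs at h with h4
      · left; refine ⟨?_, le_rfl⟩
        rw [if_neg (lt_irrefl _)]; omega
      · exact absurd rfl h
    · rw [if_neg h1]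
      rw [coeff_X_pow_mul'] at h
      split_ifs at h with h4
      · by_cases hg : coeff ((m - l - k) + (c - k - 1) + 1) (g p) = 0
        · exact absurd (z_iter_coeff_zero h3 (by omega) hg) h
        · obtain ⟨i, hi, hr⟩ := g_zero h3 (by omega) hg
          right
          exact ⟨⟨i, by omega, by omega, hr⟩, by omega, h2⟩
      · exact absurd rfl h
  · exact absurd rfl h

/-- the admissible columns -/
def Adm (k c l : ℕ) : Prop := c ≠ k ∧ (c < k → 1 ≤ l)

open Classical in
/-- Hall's condition -/
theorem hall (h3 : 3 ≤ p) {k k' L : ℕ} (hk' : k' ≤ k) (hL : 1 ≤ L) (hp' : (k + k' + 1) * L < p)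
    (T : Finset (ℕ × ℕ)) (hT : ∀ x ∈ T, x.1 ≤ k + k' ∧ x.2 < L ∧ Adm k x.1 x.2) :
    T.card ≤ ((Finset.Ico (k + L) ((k + k' + 1) * L)).filter (fun m => ∃ x ∈ T, Reg p m (sh k x.1 x.2))).card := by
  by_contra hcon
  push Not at hcon
  set NT := (Finset.Ico (k + L) ((k + k' + 1) * L)).filter (fun m => ∃ x ∈ T, Reg p m (sh k x.1 x.2)) with hNT
  set N := (k + k' + 1) * L with hN
  -- shifts
  set Xs : Finset ℕ := T.image (fun x => sh k x.1 x.2) with hXs
  set Xl : Finset ℕ := Xs.filter (fun s => s < k) with hXl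
  set cols : Finset (ℕ × ℕ) := (Finset.range (k + k' + 1) ×ˢ Finset.range L).filter
    (fun x => x.1 = k ∨ sh k x.1 x.2 ∈ Xs) with hcols
  have hmem : ∀ x, x ∈ cols → ((x.1 < k + k' + 1 ∧ x.2 < L) ∧ (x.1 = k ∨ sh k x.1 x.2 ∈ Xs)) := by
    intro x hx
    rw [hcols, mem_filter, mem_product, mem_range, mem_range] at hx
    exact hx
  set rows : Finset ℕ := (Finset.Ico k (k + L) ∪ Xl) ∪ NT with hrows
  have hrows_card : rows.card ≤ L + Xl.card + NT.card := by
    refine (card_union_le _ _).trans ?_
    have := card_union_le (Finset.Ico k (k + L)) Xl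
    rw [Nat.card_Ico] at this
    omega
  have hcols_card : L + Xl.card + T.card ≤ cols.card := by
    -- three disjoint parts
    have hA : (Finset.range L).image (fun l => (k, l)) ⊆ cols := by
      intro x hx
      rw [mem_image] at hx
      obtain ⟨l, hl, rfl⟩ := hx
      rw [mem_range] at hl
      rw [hcols, mem_filter, mem_product, mem_range, mem_range]
      exact ⟨⟨by simp only; omega, hl⟩, Or.inl rfl⟩
    have hB : Xl.image (fun s => (s, 0)) ⊆ cols := by
      intro x hx
      rw [mem_image] at hx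
      obtain ⟨s, hs, rfl⟩ := hx
      rw [hXl, mem_filter] at hs
      rw [hcols, mem_filter, mem_product, mem_range, mem_range]
      refine ⟨⟨by simp only; omega, by simp only; omega⟩, Or.inr ?_⟩
      simp only [sh]
      rw [if_pos hs.2, add_zero]
      exact hs.1
    have hC : T ⊆ cols := by
      intro x hx
      rw [hcols, mem_filter, mem_product, mem_range, mem_range]
      obtain ⟨h1, h2, h4⟩ := hT x hx
      refine ⟨⟨by omega, h2⟩, Or.inr ?_⟩
      rw [hXs, mem_image]
      exact ⟨x, hx, rfl⟩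
    have hAB : Disjoint ((Finset.range L).image (fun l => (k, l))) (Xl.image (fun s => (s, 0))) := by
      rw [Finset.disjoint_left]
      intro x hx hx2
      rw [mem_image] at hx hx2
      obtain ⟨l, hl, rfl⟩ := hx
      obtain ⟨s, hs, hs2⟩ := hx2
      rw [hXl, mem_filter] at hs
      have := congrArg Prod.fst hs2
      simp only at this
      omega
    have hABC : Disjoint (((Finset.range L).image (fun l => (k, l))) ∪ (Xl.image (fun s => (s, 0)))) T := by
      rw [Finset.disjoint_left]
      intro x hx hx2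
      obtain ⟨h1, h2, h4, h5⟩ := hT x hx2
      rw [mem_union, mem_image, mem_image] at hx
      rcases hx with ⟨l, hl, rfl⟩ | ⟨s, hs, rfl⟩
      · exact h4 rfl
      · rw [hXl, mem_filter] at hs
        have := h5 hs.2
        simp at this
    have h6 := card_le_card (union_subset (union_subset hA hB) hC)
    rw [card_union_of_disjoint hABC, card_union_of_disjoint hAB, card_image_of_injective, card_image_of_injective, card_range] at h6
    · exact h6
    · intro a b hab; exact (Prod.mk.inj hab).1
    · intro a b hab; exact (Prod.mk.inj hab).2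
  have hlt : rows.card < cols.card := by omega
  -- a nontrivial combination
  obtain ⟨a, ha0, ha⟩ : ∃ a : cols → ZMod p, a ≠ 0 ∧ ∀ m ∈ rows, ∑ x : cols, a x * coeff m (X ^ x.1.2 * Θ p k x.1.1) = 0 := by
    let f : (cols → ZMod p) →ₗ[ZMod p] (rows → ZMod p) :=
      { toFun := fun a m => ∑ x : cols, a x * coeff (m : ℕ) (X ^ x.1.2 * Θ p k x.1.1)
        map_add' := by
          intro a b; ext m; simp only [Pi.add_apply, add_mul, sum_add_distrib]
        map_smul' := by
          intro r a; ext m; simp only [Pi.smul_apply, smul_eq_mul, RingHom.id_apply, mul_sum, mul_assoc] }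
    have hker : LinearMap.ker f ≠ ⊥ := by
      refine LinearMap.ker_ne_bot_of_finrank_lt ?_
      rw [Module.finrank_fintype_fun_eq_card, Module.finrank_fintype_fun_eq_card, Fintype.card_coe, Fintype.card_coe]
      exact hlt
    obtain ⟨a, ha1, ha2⟩ := Submodule.exists_mem_ne_zero_of_ne_bot hker
    refine ⟨a, ha2, fun m hm => ?_⟩
    have := congrFun (LinearMap.mem_ker.1 ha1) ⟨m, hm⟩
    exact this
  set a' : ℕ × ℕ → ZMod p := fun x => if h : x ∈ cols then a ⟨x, h⟩ else 0 with ha'
  have hsum : ∀ m, ∑ x : cols, a x * coeff m (X ^ x.1.2 * Θ p k x.1.1) =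
      ∑ c ∈ range (k + k' + 1), ∑ l ∈ range L, a' (c, l) * coeff m (X ^ l * Θ p k c) := by
    intro m
    rw [← Finset.sum_product']
    have e1 : ∑ x : cols, a x * coeff m (X ^ x.1.2 * Θ p k x.1.1) = ∑ x ∈ cols, a' x * coeff m (X ^ x.2 * Θ p k x.1) := by
      rw [← Finset.sum_coe_sort cols]
      refine sum_congr rfl fun x _ => ?_
      simp only [ha']
      rw [dif_pos x.2]
    rw [e1]
    refine sum_subset (filter_subset _ _) ?_
    intro x _ hx
    simp only [ha']
    rw [dif_neg hx, zero_mul]
  set Q : ℕ → Polynomial (ZMod p) := fun c => ∑ l ∈ range L, Polynomial.C (a' (c, l)) * Polynomial.X ^ l with hQ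
  have hQdeg : ∀ c, (Q c).degree < (L : WithBot ℕ) := by
    intro c
    rw [hQ]
    refine lt_of_le_of_lt (Polynomial.degree_sum_le _ _) ?_
    rw [Finset.sup_lt_iff (WithBot.bot_lt_coe _)]
    intro l hl
    rw [mem_range] at hl
    refine lt_of_le_of_lt (Polynomial.degree_C_mul_X_pow_le _ _) ?_
    exact_mod_cast hl
  have hQc : ∀ c, (Q c : (ZMod p)⟦X⟧) = ∑ l ∈ range L, C (a' (c, l)) * X ^ l := by
    intro c
    have h7 : (Q c : (ZMod p)⟦X⟧) = Polynomial.coeToPowerSeries.ringHom (Q c) := rfl
    rw [h7, hQ, map_sum]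
    refine sum_congr rfl fun l _ => ?_
    rw [map_mul, map_pow]
    simp
  have hdvd : (X : (ZMod p)⟦X⟧) ^ N ∣ ∑ c ∈ range (k + k' + 1), (Q c : (ZMod p)⟦X⟧) * Θ p k c := by
    rw [X_pow_dvd_iff]
    intro m hm
    have e1 : coeff m (∑ c ∈ range (k + k' + 1), (Q c : (ZMod p)⟦X⟧) * Θ p k c) =
        ∑ x : cols, a x * coeff m (X ^ x.1.2 * Θ p k x.1.1) := by
      rw [hsum, map_sum]
      refine sum_congr rfl fun c _ => ?_
      rw [hQc, sum_mul, map_sum]
      refine sum_congr rfl fun l _ => ?_
      rw [mul_assoc, coeff_C_mul]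
    rw [e1]
    by_cases hmr : m ∈ rows
    · exact ha m hmr
    · refine sum_eq_zero fun x _ => ?_
      by_cases hx0 : coeff m (X ^ x.1.2 * Θ p k x.1.1) = 0
      · rw [hx0, mul_zero]
      · exfalso
        apply hmr
        obtain ⟨⟨hx1, hx2⟩, hx4⟩ := hmem x.1 x.2
        rw [hrows, mem_union, mem_union, mem_Ico]
        rcases entry h3 hk' (by omega) (by omega) hx0 with ⟨h5, h6⟩ | ⟨h5, h6, h7⟩
        · rcases Nat.eq_or_lt_of_le h6 with h8 | h8
          · left; left
            unfold sh at h5
            rw [if_neg (by omega)] at h5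
            omega
          · rcases Nat.lt_or_ge m k with h9 | h9
            · left; right
              rw [hXl, mem_filter]
              refine ⟨?_, h9⟩
              rw [h5]
              rcases hx4 with h10 | h10
              · omega
              · exact h10
            · left; left
              unfold sh at h5
              rw [if_pos h8] at h5
              omega
        · rcases Nat.lt_or_ge m (k + L) with h9 | h9
          · left; left; exact ⟨h6, h9⟩
          · right
            rw [hNT, mem_filter, mem_Ico]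
            refine ⟨⟨h9, hm⟩, ?_⟩
            rcases hx4 with h10 | h10
            · exact absurd h10 h7
            · rw [hXs, mem_image] at h10
              obtain ⟨t, ht, ht2⟩ := h10
              refine ⟨t, ht, ?_⟩
              rw [ht2]; exact h5
  have hQ0 := nv h3 hk' hL hp' Q (fun c _ => hQdeg c) hdvd
  apply ha0
  ext x
  obtain ⟨⟨hx1, hx2⟩, hx4⟩ := hmem x.1 x.2
  have h1 := congrArg (fun P => Polynomial.coeff P x.1.2) (hQ0 x.1.1 (by omega))
  simp only [hQ, Polynomial.finsetSum_coeff, Polynomial.coeff_zero, Polynomial.coeff_C_mul, Polynomial.coeff_X_pow] at h1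
  rw [sum_eq_single_of_mem x.1.2 (mem_range.2 hx2)] at h1
  · rw [if_pos rfl, mul_one] at h1
    simp only [ha'] at h1
    rw [dif_pos x.2] at h1
    exact h1
  · intro b _ hb
    rw [if_neg (fun h => hb h.symm), mul_zero]

open Classical in
/-- The matching: the columns are the pairs `(c, l)`, `c ≤ k + k'`, `c ≠ k`, `l < L`, `1 ≤ l` if `c < k`. -/
theorem matching (h3 : 3 ≤ p) {k k' L : ℕ} (hk' : k' ≤ k) (hL : 1 ≤ L) (hp' : (k + k' + 1) * L < p) :
    ∃ f : ℕ × ℕ → ℕ, Set.InjOn f {x | x.1 ≤ k + k' ∧ x.2 < L ∧ Adm k x.1 x.2} ∧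
      ∀ x : ℕ × ℕ, x.1 ≤ k + k' → x.2 < L → Adm k x.1 x.2 →
        (k + L ≤ f x ∧ f x < (k + k' + 1) * L) ∧ Reg p (f x) (sh k x.1 x.2) := by
  set S : Finset (ℕ × ℕ) := (Finset.range (k + k' + 1) ×ˢ Finset.range L).filter (fun x => Adm k x.1 x.2) with hS
  have hSmem : ∀ x, x ∈ S ↔ (x.1 ≤ k + k' ∧ x.2 < L ∧ Adm k x.1 x.2) := by
    intro x
    rw [hS, mem_filter, mem_product, mem_range, mem_range, Nat.lt_succ_iff, and_assoc]
  let t : S → Finset ℕ := fun x => (Finset.Ico (k + L) ((k + k' + 1) * L)).filter (fun m => Reg p m (sh k x.1.1 x.1.2))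
  have hHall : ∀ s : Finset S, s.card ≤ (s.biUnion t).card := by
    intro s
    have h1 := hall h3 hk' hL hp' (s.map (Function.Embedding.subtype _)) (by
      intro x hx
      rw [mem_map] at hx
      obtain ⟨y, _, rfl⟩ := hx
      exact (hSmem _).1 y.2)
    rw [card_map] at h1
    refine h1.trans (card_le_card ?_)
    intro m hm
    rw [mem_filter] at hm
    obtain ⟨hm1, x, hx, hm2⟩ := hm
    rw [mem_map] at hx
    obtain ⟨y, hy, rfl⟩ := hx
    rw [mem_biUnion]
    exact ⟨y, hy, mem_filter.2 ⟨hm1, hm2⟩⟩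
  obtain ⟨f, hf, hf2⟩ := (Finset.all_card_le_biUnion_card_iff_exists_injective t).1 hHall
  refine ⟨fun x => if h : x ∈ S then f ⟨x, h⟩ else 0, ?_, ?_⟩
  · intro x hx y hy hxy
    have hx' := (hSmem x).2 hx
    have hy' := (hSmem y).2 hy
    simp only at hxy
    rw [dif_pos hx', dif_pos hy'] at hxy
    have := hf hxy
    exact congrArg Subtype.val this
  · intro x h1 h2 h4
    have hx' := (hSmem x).2 ⟨h1, h2, h4⟩
    beta_reduce
    rw [dif_pos hx']
    have h5 := hf2 ⟨x, hx'⟩
    simp only [t] at h5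
    rw [mem_filter, mem_Ico] at h5
    exact h5

end Pool.Agent.Z058
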