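import Mathlib
import Pool.Agent.Z058.NV

/-! Exponential polynomials and regular indices. -/

set_option autoImplicit false

open Finset PowerSeries Pool.Agent.H332R2 Pool.Agent.X148.RegPerm

namespace Pool.Agent.Z058

variable {p : ℕ} [hp : Fact p.Prime]

lemma D_coeff (j m : ℕ) : coeff m (D p j) = (∏ t ∈ range j, ((m : ZMod p) - ((t : ZMod p) + 1))) * coeff m (g p) := by
  induction j with
  | zero => simp [D]
  | succ j ih =>
    rw [D, map_sub]
    have h1 : coeff m ((X : (ZMod p)⟦X⟧) * d⁄dX (ZMod p) (D p j)) = m * coeff m (D p j) := by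
      rcases m with _ | m
      · simp
      · rw [coeff_succ_X_mul, coeff_derivative]; push_cast; ring
    have h2 : coeff m (((j : (ZMod p)⟦X⟧) + 1) * D p j) = ((j : ZMod p) + 1) * coeff m (D p j) := by
      have : ((j : (ZMod p)⟦X⟧) + 1) = C ((j : ZMod p) + 1) := by rw [map_add, map_natCast, map_one]
      rw [this, coeff_C_mul]
    rw [h1, h2, ih, prod_range_succ]; ring

/-- `e^(a x) = (e^x)^a` modulo `x^p` -/
lemma EE_pow (a : ℕ) : (X : (ZMod p)⟦X⟧) ^ p ∣ rescale (a : ZMod p) (EE p) - EE p ^ a := by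
  induction a with
  | zero =>
    have : rescale ((0 : ℕ) : ZMod p) (EE p) - EE p ^ 0 = 0 := by
      ext m
      rw [map_sub, coeff_rescale, pow_zero, coeff_one, map_zero]
      split_ifs with h
      · subst h; simp [EE, fi_zero]
      · rw [Nat.cast_zero, zero_pow h]; ring
    rw [this]; exact dvd_zero _
  | succ a ih =>
    have h1 : (X : (ZMod p)⟦X⟧) ^ p ∣ rescale ((a + 1 : ℕ) : ZMod p) (EE p) - rescale (a : ZMod p) (EE p) * EE p := by
      rw [X_pow_dvd_iff]
      intro m hm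
      rw [map_sub, coeff_rescale, coeff_mul, sub_eq_zero]
      simp only [EE, coeff_mk, coeff_rescale]
      have h1 : ∀ x ∈ antidiagonal m, (a : ZMod p) ^ x.1 * fi p x.1 * fi p x.2 =
          fi p m * ((a : ZMod p) ^ x.1 * 1 ^ x.2 * ((m.choose x.1 : ℕ) : ZMod p)) := by
        intro x hx
        rw [HasAntidiagonal.mem_antidiagonal] at hx
        have := fi_add (p := p) (i := x.1) (j := x.2) (by omega)
        rw [hx] at this
        rw [mul_assoc, this]; ring
      rw [sum_congr rfl h1, ← mul_sum, Finset.Nat.sum_antidiagonal_eq_sum_range_succ_mk]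
      have h2 := add_pow (a : ZMod p) 1 m
      rw [Nat.succ_eq_add_one]
      simp only at h2 ⊢
      rw [← h2]; push_cast; ring
    have e1 : rescale ((a + 1 : ℕ) : ZMod p) (EE p) - EE p ^ (a + 1) =
        (rescale ((a + 1 : ℕ) : ZMod p) (EE p) - rescale (a : ZMod p) (EE p) * EE p) +
        (rescale (a : ZMod p) (EE p) - EE p ^ a) * EE p := by ring
    rw [e1]
    exact dvd_add h1 (Dvd.dvd.mul_right ih _)

/-- `(Y + 1)^(j+1) V_j ((Y-1)/(Y+1))` -/
noncomputable def U (p : ℕ) [Fact p.Prime] (j : ℕ) : Polynomial (ZMod p) :=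
  ∑ m ∈ range (j + 2), Polynomial.C ((V p j).coeff m) * ((Polynomial.X - 1) ^ m * (Polynomial.X + 1) ^ (j + 1 - m))

lemma U_one (h3 : 3 ≤ p) (j : ℕ) (hj : j < p) : (U p j).eval 1 ≠ 0 := by
  unfold U
  rw [Polynomial.eval_finsetSum, sum_eq_single_of_mem 0 (by simp)]
  · simp only [pow_zero, Nat.sub_zero, one_mul, Polynomial.eval_mul, Polynomial.eval_C, Polynomial.eval_pow,
      Polynomial.eval_add, Polynomial.eval_X, Polynomial.eval_one]
    refine mul_ne_zero (V_coeff0 h3 j hj) (pow_ne_zero _ ?_)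
    rw [one_add_one_eq_two]; exact two_ne h3
  · intro b _ hb
    simp [hb]

lemma U_deg (j : ℕ) : (U p j).natDegree ≤ j + 1 := by
  unfold U
  refine Polynomial.natDegree_sum_le_of_forall_le _ _ fun m hm => ?_
  rw [mem_range] at hm
  refine (Polynomial.natDegree_C_mul_le _ _).trans (Polynomial.natDegree_mul_le.trans ?_)
  have h1 : ((Polynomial.X - 1 : Polynomial (ZMod p)) ^ m).natDegree ≤ m := by
    refine (Polynomial.natDegree_pow_le).trans ?_
    have : (Polynomial.X - 1 : Polynomial (ZMod p)).natDegree ≤ 1 := by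
      rw [← Polynomial.C_1]; exact (Polynomial.natDegree_X_sub_C (1 : ZMod p)).le
    nlinarith
  have h1' : ((Polynomial.X + 1 : Polynomial (ZMod p)) ^ (j + 1 - m)).natDegree ≤ j + 1 - m := by
    refine (Polynomial.natDegree_pow_le).trans ?_
    have : (Polynomial.X + 1 : Polynomial (ZMod p)).natDegree ≤ 1 := by
      rw [← Polynomial.C_1]; exact (Polynomial.natDegree_X_add_C (1 : ZMod p)).le
    nlinarith
  omega

/-- `D_j (E - 1)^(j+1) = x^(j+1) U_j(E)` modulo `x^p` -/
lemma D_U (h3 : 3 ≤ p) (j : ℕ) : (X : (ZMod p)⟦X⟧) ^ p ∣ D p j * (EE p - 1) ^ (j + 1) - X ^ (j + 1) * Polynomial.aeval (EE p) (U p j) := by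
  have h1 := D_dvd (p := p) h3 j
  have h2 : Polynomial.aeval (EE p) (U p j) = Polynomial.aeval (z p) (V p j) * (EE p + 1) ^ (j + 1) := by
    have hV : (V p j).natDegree < j + 2 := by
      refine Nat.lt_succ_of_le (Polynomial.natDegree_le_iff_coeff_eq_zero.2 fun n hn => V_high _ _ hn)
    rw [Polynomial.aeval_eq_sum_range' hV, sum_mul, U, map_sum]
    refine sum_congr rfl fun m hm => ?_
    rw [mem_range] at hm
    rw [map_mul, map_mul, map_pow, map_pow, map_sub, map_add, map_one, Polynomial.aeval_X, Polynomial.aeval_C]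
    have e3 : ∀ c : ZMod p, (algebraMap (ZMod p) (ZMod p)⟦X⟧) c = C c := fun _ => rfl
    rw [e3, PowerSeries.smul_eq_C_mul, ← z_mul h3, mul_pow]
    have e4 : (EE p + 1) ^ (j + 1) = (EE p + 1) ^ m * (EE p + 1) ^ (j + 1 - m) := by rw [← pow_add]; congr 1; omega
    rw [e4]; ring
  have e1 : D p j * (EE p - 1) ^ (j + 1) - X ^ (j + 1) * Polynomial.aeval (EE p) (U p j) =
      (D p j * z p ^ (j + 1) - X ^ (j + 1) * Polynomial.aeval (z p) (V p j)) * (EE p + 1) ^ (j + 1) := by
    rw [h2, ← z_mul h3, mul_pow]; ring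
  rw [e1]
  exact Dvd.dvd.mul_right ((pow_dvd_pow _ (by omega)).trans h1) _

/-- the rescaled version -/
lemma D_U_a (h3 : 3 ≤ p) (a j : ℕ) : (X : (ZMod p)⟦X⟧) ^ p ∣ rescale (a : ZMod p) (D p j) * (EE p ^ a - 1) ^ (j + 1) -
    C ((a : ZMod p) ^ (j + 1)) * X ^ (j + 1) * Polynomial.aeval (EE p ^ a) (U p j) := by
  obtain ⟨r, hr⟩ := D_U (p := p) h3 j
  obtain ⟨s, hs⟩ := EE_pow (p := p) a
  have h1 := congrArg (rescale (a : ZMod p)) hr
  rw [map_sub, map_mul, map_mul, map_mul, map_pow, map_pow, map_pow, map_sub, map_one, rescale_X] at h1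
  have h2 : rescale (a : ZMod p) (Polynomial.aeval (EE p) (U p j)) = Polynomial.aeval (rescale (a : ZMod p) (EE p)) (U p j) := by
    rw [Polynomial.aeval_eq_sum_range, Polynomial.aeval_eq_sum_range, map_sum]
    refine sum_congr rfl fun m _ => ?_
    rw [PowerSeries.smul_eq_C_mul, PowerSeries.smul_eq_C_mul, map_mul, map_pow]
    congr 1
    ext n
    rw [coeff_rescale, coeff_C]
    split_ifs with h
    · subst h; simp
    · simp
  rw [h2] at h1
  have hs' : rescale (a : ZMod p) (EE p) = EE p ^ a + X ^ p * s := by rw [← hs]; ring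
  obtain ⟨v, hv⟩ : ∃ v, Polynomial.aeval (rescale (a : ZMod p) (EE p)) (U p j) - Polynomial.aeval (EE p ^ a) (U p j) =
      (rescale (a : ZMod p) (EE p) - EE p ^ a) * v := by
    have := Polynomial.sub_dvd_eval_sub (rescale (a : ZMod p) (EE p)) (EE p ^ a) ((U p j).map (algebraMap (ZMod p) (ZMod p)⟦X⟧))
    rw [Polynomial.eval_map_algebraMap, Polynomial.eval_map_algebraMap] at this
    exact this
  obtain ⟨w, hw⟩ : ∃ w, (rescale (a : ZMod p) (EE p) - 1) ^ (j + 1) - (EE p ^ a - 1) ^ (j + 1) =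
      (rescale (a : ZMod p) (EE p) - EE p ^ a) * w := by
    have := sub_dvd_pow_sub_pow (rescale (a : ZMod p) (EE p) - 1) (EE p ^ a - 1) (j + 1)
    rw [show rescale (a : ZMod p) (EE p) - 1 - (EE p ^ a - 1) = rescale (a : ZMod p) (EE p) - EE p ^ a by ring] at this
    exact this
  rw [hs] at hv hw
  have e1 : rescale (a : ZMod p) (D p j) * (EE p ^ a - 1) ^ (j + 1) -
      C ((a : ZMod p) ^ (j + 1)) * X ^ (j + 1) * Polynomial.aeval (EE p ^ a) (U p j) =
      X ^ p * (C (a : ZMod p) ^ p * rescale (a : ZMod p) r - rescale (a : ZMod p) (D p j) * (s * w) +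
        C ((a : ZMod p) ^ (j + 1)) * X ^ (j + 1) * (s * v)) := by
    have e2 : (C ((a : ZMod p) ^ (j + 1)) : (ZMod p)⟦X⟧) = C (a : ZMod p) ^ (j + 1) := map_pow _ _ _
    rw [e2]
    linear_combination h1 - rescale (a : ZMod p) (D p j) * hw + (C (a : ZMod p) ^ (j + 1) * X ^ (j + 1)) * hv
  rw [e1]
  exact Dvd.intro _ rfl

/-- the set of the divisors -/
def dv (S : Finset ℕ) : Finset ℕ := S.biUnion Nat.divisors

/-- the degree -/
def DD (S : Finset ℕ) : ℕ := ∑ n ∈ dv S, n.totient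

/-- common denominator -/
noncomputable def PI (p : ℕ) (S : Finset ℕ) : Polynomial (ZMod p) := ∏ n ∈ dv S, Polynomial.cyclotomic n (ZMod p)

/-- cofactor -/
noncomputable def MM (p : ℕ) (S : Finset ℕ) (a : ℕ) : Polynomial (ZMod p) :=
  ∏ n ∈ dv S \ Nat.divisors a, Polynomial.cyclotomic n (ZMod p)

lemma PI_eq (S : Finset ℕ) {a : ℕ} (ha : a ∈ S) (ha0 : 0 < a) : PI p S = (Polynomial.X ^ a - 1) * MM p S a := by
  unfold PI MM
  rw [← Polynomial.prod_cyclotomic_eq_X_pow_sub_one ha0, mul_comm, prod_sdiff]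
  exact subset_biUnion_of_mem Nat.divisors ha

lemma PI_deg (S : Finset ℕ) : (PI p S).natDegree = DD S := by
  unfold PI DD
  rw [Polynomial.natDegree_prod_of_monic _ _ (fun n _ => Polynomial.cyclotomic.monic n _)]
  refine sum_congr rfl fun n _ => Polynomial.natDegree_cyclotomic n _

lemma PI_ne (S : Finset ℕ) : PI p S ≠ 0 := (Polynomial.monic_prod_of_monic _ _ (fun n _ => Polynomial.cyclotomic.monic n _)).ne_zero

lemma MM_deg (S : Finset ℕ) {a : ℕ} (ha : a ∈ S) (ha0 : 0 < a) : (MM p S a).natDegree + a = DD S := by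
  rw [← PI_deg (p := p), PI_eq S ha ha0]
  have h1 : (Polynomial.X ^ a - 1 : Polynomial (ZMod p)).Monic := Polynomial.monic_X_pow_sub_C 1 (by omega)
  have h2 : (MM p S a).Monic := Polynomial.monic_prod_of_monic _ _ (fun n _ => Polynomial.cyclotomic.monic n _)
  rw [h1.natDegree_mul h2, add_comm]
  congr 1
  exact (Polynomial.natDegree_X_pow_sub_C (n := a) (r := (1 : ZMod p))).symm

/-- the polynomials in `Y = e^x` -/
noncomputable def Rp (p : ℕ) [Fact p.Prime] (S : Finset ℕ) (k a j : ℕ) : Polynomial (ZMod p) :=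
  (U p j).comp (Polynomial.X ^ a) * MM p S a ^ (j + 1) * PI p S ^ (k - 1 - j)

lemma Rp_deg (S : Finset ℕ) {k a j : ℕ} (ha : a ∈ S) (ha0 : 0 < a) (hj : j < k) : (Rp p S k a j).natDegree ≤ DD S * k := by
  unfold Rp
  have h1 := MM_deg (p := p) S ha ha0
  have h2 : ((U p j).comp (Polynomial.X ^ a)).natDegree ≤ (j + 1) * a := by
    refine Polynomial.natDegree_comp_le.trans ?_
    rw [Polynomial.natDegree_X_pow]
    exact Nat.mul_le_mul_right _ (U_deg j)
  have h3 : (MM p S a ^ (j + 1)).natDegree ≤ (j + 1) * (MM p S a).natDegree := Polynomial.natDegree_pow_le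
  have h4 : (PI p S ^ (k - 1 - j)).natDegree ≤ (k - 1 - j) * DD S := by
    rw [← PI_deg (p := p)]; exact Polynomial.natDegree_pow_le
  refine Polynomial.natDegree_mul_le.trans ?_
  have h5 : ((U p j).comp (Polynomial.X ^ a) * MM p S a ^ (j + 1)).natDegree ≤ (j + 1) * DD S := by
    refine Polynomial.natDegree_mul_le.trans ?_
    rw [← h1, Nat.mul_add]; omega
  have h6 : DD S * k = (j + 1) * DD S + (k - 1 - j) * DD S := by
    rw [← Nat.add_mul, mul_comm]; congr 1; omega
  omega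

/-- Independence of the `Rp`. -/
lemma Rp_indep (h3 : 3 ≤ p) (S : Finset ℕ) (hS : ∀ a ∈ S, 0 < a ∧ a < p) {k j : ℕ} (hj : j < k) (hjp : j < p) (ν : ℕ → ZMod p) (q : ZMod p)
    (h : ∑ a ∈ S, Polynomial.C (ν a) * Rp p S k a j = Polynomial.C q * PI p S ^ k) : ∀ a ∈ S, ν a = 0 := by
  -- divide by a power of `PI`
  have h1 : ∑ a ∈ S, Polynomial.C (ν a) * ((U p j).comp (Polynomial.X ^ a) * MM p S a ^ (j + 1)) = Polynomial.C q * PI p S ^ (j + 1) := by
    have h2 : PI p S ^ (k - 1 - j) ≠ 0 := pow_ne_zero _ (PI_ne S)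
    refine mul_right_cancel₀ h2 ?_
    rw [sum_mul, mul_assoc, ← pow_add, show j + 1 + (k - 1 - j) = k by omega, ← h]
    refine sum_congr rfl fun a _ => ?_
    rw [Rp]; ring
  by_contra hcon
  push Not at hcon
  obtain ⟨a0, ha0, hν0⟩ := hcon
  set S' := S.filter (fun a => ν a ≠ 0) with hS'
  have hne : S'.Nonempty := ⟨a0, mem_filter.2 ⟨ha0, hν0⟩⟩
  set a := S'.max' hne with ha
  have haS' : a ∈ S' := Finset.max'_mem _ _
  have haS : a ∈ S := (mem_filter.1 haS').1
  have hνa : ν a ≠ 0 := (mem_filter.1 haS').2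
  obtain ⟨hapos, hap⟩ := hS a haS
  have hane : NeZero ((a : ℕ) : AlgebraicClosure (ZMod p)) := by
    refine ⟨fun h0 => ?_⟩
    have h5 : ((a : ℕ) : ZMod p) ≠ 0 := nat_ne_zero hapos hap
    apply h5
    have h6 : algebraMap (ZMod p) (AlgebraicClosure (ZMod p)) ((a : ℕ) : ZMod p) = 0 := by rw [map_natCast]; exact h0
    exact (_root_.map_eq_zero _).1 h6
  -- a primitive root
  obtain ⟨w, hw⟩ : ∃ w : AlgebraicClosure (ZMod p), (Polynomial.cyclotomic a (AlgebraicClosure (ZMod p))).IsRoot w := by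
    refine IsAlgClosed.exists_root _ ?_
    have := Polynomial.degree_cyclotomic_pos a (AlgebraicClosure (ZMod p)) hapos
    exact this.ne'
  have hprim : IsPrimitiveRoot w a := Polynomial.isRoot_cyclotomic_iff.1 hw
  have hcyc : ∀ n, (Polynomial.aeval w) (Polynomial.cyclotomic n (ZMod p)) = (Polynomial.cyclotomic n (AlgebraicClosure (ZMod p))).eval w := by
    intro n
    rw [← Polynomial.map_cyclotomic n (algebraMap (ZMod p) (AlgebraicClosure (ZMod p))), Polynomial.eval_map_algebraMap]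
  have hcyc0 : (Polynomial.aeval w) (Polynomial.cyclotomic a (ZMod p)) = 0 := by rw [hcyc]; exact hw
  have hadv : a ∈ dv S := mem_biUnion.2 ⟨a, haS, Nat.mem_divisors_self a (by omega)⟩
  have hPI : (Polynomial.aeval w) (PI p S) = 0 := by
    unfold PI
    rw [map_prod]
    exact prod_eq_zero hadv hcyc0
  have hMM : ∀ b ∈ S, b < a → (Polynomial.aeval w) (MM p S b) = 0 := by
    intro b hb hba
    unfold MM
    rw [map_prod]
    refine prod_eq_zero (mem_sdiff.2 ⟨hadv, fun hd => ?_⟩) hcyc0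
    have := Nat.divisor_le hd
    omega
  have hMMa : (Polynomial.aeval w) (MM p S a) ≠ 0 := by
    unfold MM
    rw [map_prod, prod_ne_zero_iff]
    intro n hn hn0
    rw [mem_sdiff] at hn
    apply hn.2
    obtain ⟨b, hb, hnb⟩ := mem_biUnion.1 hn.1
    rw [Nat.mem_divisors] at hnb
    have hnpos : 0 < n := Nat.pos_of_dvd_of_pos hnb.1 (hS b hb).1
    have hnp : n < p := lt_of_le_of_lt (Nat.le_of_dvd (hS b hb).1 hnb.1) (hS b hb).2
    have hnne : NeZero ((n : ℕ) : AlgebraicClosure (ZMod p)) := by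
      refine ⟨fun h0 => ?_⟩
      have h5 : ((n : ℕ) : ZMod p) ≠ 0 := nat_ne_zero hnpos hnp
      apply h5
      have h6 : algebraMap (ZMod p) (AlgebraicClosure (ZMod p)) ((n : ℕ) : ZMod p) = 0 := by rw [map_natCast]; exact h0
      exact (_root_.map_eq_zero _).1 h6
    rw [hcyc] at hn0
    have h7 : IsPrimitiveRoot w n := Polynomial.isRoot_cyclotomic_iff.1 hn0
    have h8 := h7.unique hprim
    rw [h8]
    exact Nat.mem_divisors_self a (by omega)
  have h5 := congrArg (Polynomial.aeval w) h1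
  rw [map_sum, map_mul, map_pow, hPI, zero_pow (by omega), mul_zero, sum_eq_single_of_mem a haS] at h5
  · rw [map_mul, map_mul, map_pow, Polynomial.aeval_C, Polynomial.aeval_comp, map_pow, Polynomial.aeval_X, hprim.pow_eq_one] at h5
    have h6 : (Polynomial.aeval (1 : AlgebraicClosure (ZMod p))) (U p j) ≠ 0 := by
      have : (Polynomial.aeval (1 : AlgebraicClosure (ZMod p))) (U p j) = algebraMap (ZMod p) (AlgebraicClosure (ZMod p)) ((U p j).eval 1) := by
        rw [← map_one (algebraMap (ZMod p) (AlgebraicClosure (ZMod p))), Polynomial.aeval_algebraMap_apply]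
        simp
      rw [this]
      exact fun h0 => U_one h3 j hjp ((_root_.map_eq_zero _).1 h0)
    rcases mul_eq_zero.1 h5 with h7 | h7
    · exact hνa ((_root_.map_eq_zero _).1 h7)
    · rcases mul_eq_zero.1 h7 with h8 | h8
      · exact h6 h8
      · exact (pow_ne_zero _ hMMa) h8
  · intro b hb hba
    by_cases hνb : ν b = 0
    · rw [hνb]; simp
    · have h6 : b ≤ a := Finset.le_max' _ _ (mem_filter.2 ⟨hb, hνb⟩)
      rw [map_mul, map_mul, map_pow, hMM b hb (lt_of_le_of_ne h6 hba), zero_pow (by omega), mul_zero, mul_zero]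

/-- The main estimate. -/
theorem main_est (h3 : 3 ≤ p) (S : Finset ℕ) (hS : ∀ a ∈ S, 0 < a ∧ a < p) (hne : S.Nonempty) (k A b : ℕ) (hk : 1 ≤ k)
    (hTp : (DD S * k + 1) * (max (2 * A) k + 1) ≤ p) (hb : (DD S * k + 1) * (max (2 * A) k + 1) ≤ 2 * b + 2 + k)
    (hb2 : 2 * b + 3 ≤ p) (μ : ℕ → ℕ → ZMod p)
    (hv : ∀ i, A < i → i ≤ b → (∑ a ∈ S, ∑ j ∈ range k, μ a j * (a : ZMod p) ^ (2 * i) *
      (∏ t ∈ range j, (((2 * i : ℕ) : ZMod p) - ((t : ZMod p) + 1)))) * coeff (2 * i) (g p) = 0) :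
    ∀ a ∈ S, ∀ j < k, μ a j = 0 := by
  set T := (DD S * k + 1) * (max (2 * A) k + 1) with hT
  set L := max (2 * A) k + 1 with hL
  have hDpos : 1 ≤ DD S := by
    obtain ⟨a, ha⟩ := hne
    have h1 : (1 : ℕ) ∈ dv S := mem_biUnion.2 ⟨a, ha, Nat.one_mem_divisors.2 (by have := (hS a ha).1; omega)⟩
    have := Finset.single_le_sum (f := fun n => Nat.totient n) (fun n _ => Nat.zero_le _) h1
    simpa [DD] using this
  have hkp : k < p := by
    have h1 : k + 1 ≤ L := by rw [hL]; have := le_max_right (2 * A) k; omega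
    have h2 : 1 * (k + 1) ≤ T := by rw [hT]; exact Nat.mul_le_mul (by omega) h1
    omega
  have hDk : DD S * k < p := by
    have h2 : (DD S * k + 1) * 1 ≤ T := by rw [hT]; exact Nat.mul_le_mul_left _ (by omega)
    omega
  -- the series `G`
  set G : (ZMod p)⟦X⟧ := ∑ a ∈ S, ∑ j ∈ range k, C (μ a j) * rescale (a : ZMod p) (D p j) with hG
  have hGc : ∀ m, coeff m G = (∑ a ∈ S, ∑ j ∈ range k, μ a j * (a : ZMod p) ^ m *
      (∏ t ∈ range j, ((m : ZMod p) - ((t : ZMod p) + 1)))) * coeff m (g p) := by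
    intro m
    rw [hG, map_sum, sum_mul]
    refine sum_congr rfl fun a _ => ?_
    rw [map_sum, sum_mul]
    refine sum_congr rfl fun j _ => ?_
    rw [coeff_C_mul, coeff_rescale, D_coeff]; ring
  set P : Polynomial (ZMod p) := PowerSeries.trunc (2 * A + 1) G with hP
  have hPdeg : P.degree < ((2 * A + 1 : ℕ) : WithBot ℕ) := PowerSeries.degree_trunc_lt _ _
  have hGP : (X : (ZMod p)⟦X⟧) ^ (2 * b + 2) ∣ G - (P : (ZMod p)⟦X⟧) := by
    rw [X_pow_dvd_iff]
    intro m hm
    rw [map_sub, Polynomial.coeff_coe, hP, PowerSeries.coeff_trunc]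
    split_ifs with h
    · rw [sub_self]
    · rw [sub_zero, hGc]
      rcases Nat.even_or_odd' m with ⟨i, hi | hi⟩
      · subst hi
        exact hv i (by omega) (by omega)
      · rw [g_coeff h3 (by omega), G_odd h3 ⟨i, hi⟩, mul_zero]
  -- the common denominator
  set Pe : (ZMod p)⟦X⟧ := Polynomial.aeval (EE p) (PI p S) with hPe
  have hPeX : (X : (ZMod p)⟦X⟧) ∣ Pe := by
    obtain ⟨a, ha⟩ := hne
    rw [hPe, PI_eq S ha (hS a ha).1, map_mul, map_sub, map_pow, Polynomial.aeval_X, map_one]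
    refine Dvd.dvd.mul_right ?_ _
    have h1 : (X : (ZMod p)⟦X⟧) ∣ EE p - 1 := by rw [EE_sub]; exact Dvd.intro _ rfl
    exact h1.trans (sub_one_dvd_pow_sub_one _ _)
  have h1 : (X : (ZMod p)⟦X⟧) ^ T ∣ (G - (P : (ZMod p)⟦X⟧)) * Pe ^ k := by
    have h2 : (X : (ZMod p)⟦X⟧) ^ (2 * b + 2 + k) ∣ (G - (P : (ZMod p)⟦X⟧)) * Pe ^ k := by
      rw [pow_add]; exact mul_dvd_mul hGP (pow_dvd_pow_of_dvd hPeX k)
    exact (pow_dvd_pow _ hb).trans h2
  have hterm : ∀ a ∈ S, ∀ j < k, (X : (ZMod p)⟦X⟧) ^ T ∣ rescale (a : ZMod p) (D p j) * Pe ^ k -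
      C ((a : ZMod p) ^ (j + 1)) * X ^ (j + 1) * Polynomial.aeval (EE p) (Rp p S k a j) := by
    intro a ha j hj
    have e1 : rescale (a : ZMod p) (D p j) * Pe ^ k - C ((a : ZMod p) ^ (j + 1)) * X ^ (j + 1) * Polynomial.aeval (EE p) (Rp p S k a j) =
        (rescale (a : ZMod p) (D p j) * (EE p ^ a - 1) ^ (j + 1) - C ((a : ZMod p) ^ (j + 1)) * X ^ (j + 1) *
          Polynomial.aeval (EE p ^ a) (U p j)) * (Polynomial.aeval (EE p) (MM p S a) ^ (j + 1) * Pe ^ (k - 1 - j)) := by
      have e2 : Pe ^ k = (EE p ^ a - 1) ^ (j + 1) * Polynomial.aeval (EE p) (MM p S a) ^ (j + 1) * Pe ^ (k - 1 - j) := by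
        have e3 : Pe ^ (j + 1) = (EE p ^ a - 1) ^ (j + 1) * Polynomial.aeval (EE p) (MM p S a) ^ (j + 1) := by
          rw [← mul_pow]; congr 1
          rw [hPe, PI_eq S ha (hS a ha).1, map_mul, map_sub, map_pow, Polynomial.aeval_X, map_one]
        rw [← e3, ← pow_add]; congr 1; omega
      have e4 : Polynomial.aeval (EE p) (Rp p S k a j) = Polynomial.aeval (EE p ^ a) (U p j) *
          Polynomial.aeval (EE p) (MM p S a) ^ (j + 1) * Pe ^ (k - 1 - j) := by
        rw [Rp, map_mul, map_mul, map_pow, map_pow, Polynomial.aeval_comp, map_pow, Polynomial.aeval_X]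
      rw [e2, e4]; ring
    rw [e1]
    exact Dvd.dvd.mul_right ((pow_dvd_pow _ hTp).trans (D_U_a h3 a j)) _
  have h2 : (X : (ZMod p)⟦X⟧) ^ T ∣ (∑ a ∈ S, ∑ j ∈ range k, C (μ a j * (a : ZMod p) ^ (j + 1)) * X ^ (j + 1) *
      Polynomial.aeval (EE p) (Rp p S k a j)) - (P : (ZMod p)⟦X⟧) * Pe ^ k := by
    have e1 : (∑ a ∈ S, ∑ j ∈ range k, C (μ a j * (a : ZMod p) ^ (j + 1)) * X ^ (j + 1) *
      Polynomial.aeval (EE p) (Rp p S k a j)) - (P : (ZMod p)⟦X⟧) * Pe ^ k =
      (G - (P : (ZMod p)⟦X⟧)) * Pe ^ k - ∑ a ∈ S, ∑ j ∈ range k, C (μ a j) * (rescale (a : ZMod p) (D p j) * Pe ^ k -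
      C ((a : ZMod p) ^ (j + 1)) * X ^ (j + 1) * Polynomial.aeval (EE p) (Rp p S k a j)) := by
      have e2 : G * Pe ^ k = ∑ a ∈ S, ∑ j ∈ range k, C (μ a j) * (rescale (a : ZMod p) (D p j) * Pe ^ k) := by
        rw [hG, sum_mul]
        refine sum_congr rfl fun a _ => ?_
        rw [sum_mul]
        refine sum_congr rfl fun j _ => ?_
        ring
      rw [sub_mul, e2]
      have e3 : ∀ a ∈ S, ∑ j ∈ range k, C (μ a j) * (rescale (a : ZMod p) (D p j) * Pe ^ k -
          C ((a : ZMod p) ^ (j + 1)) * X ^ (j + 1) * Polynomial.aeval (EE p) (Rp p S k a j)) =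
          ∑ j ∈ range k, C (μ a j) * (rescale (a : ZMod p) (D p j) * Pe ^ k) -
          ∑ j ∈ range k, C (μ a j * (a : ZMod p) ^ (j + 1)) * X ^ (j + 1) * Polynomial.aeval (EE p) (Rp p S k a j) := by
        intro a _
        rw [← sum_sub_distrib]
        refine sum_congr rfl fun j _ => ?_
        rw [map_mul]; ring
      rw [sum_congr rfl e3, sum_sub_distrib]
      ring
    rw [e1]
    refine dvd_sub h1 (dvd_sum fun a ha => dvd_sum fun j hj => ?_)
    rw [mem_range] at hj
    exact Dvd.dvd.mul_left (hterm a ha j hj) _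
  -- the coefficients in `Y`
  set W : ℕ → Polynomial (ZMod p) := fun f => (∑ a ∈ S, ∑ j ∈ range k, Polynomial.C (μ a j * (a : ZMod p) ^ (j + 1) *
    (Rp p S k a j).coeff f) * Polynomial.X ^ (j + 1)) - P * Polynomial.C ((PI p S ^ k).coeff f) with hW
  have hPk : (PI p S ^ k).natDegree < DD S * k + 1 := by
    refine Nat.lt_succ_of_le ((Polynomial.natDegree_pow_le).trans ?_)
    rw [PI_deg, mul_comm]
  have hWdeg : ∀ f, (W f).degree < (L : WithBot ℕ) := by
    intro f
    rw [hW]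
    refine lt_of_le_of_lt (Polynomial.degree_sub_le _ _) (max_lt ?_ ?_)
    · refine lt_of_le_of_lt (Polynomial.degree_sum_le _ _) ?_
      rw [Finset.sup_lt_iff (WithBot.bot_lt_coe _)]
      intro a _
      refine lt_of_le_of_lt (Polynomial.degree_sum_le _ _) ?_
      rw [Finset.sup_lt_iff (WithBot.bot_lt_coe _)]
      intro j hj
      rw [mem_range] at hj
      refine lt_of_le_of_lt (Polynomial.degree_C_mul_X_pow_le _ _) ?_
      have : j + 1 < L := by rw [hL]; have := le_max_right (2 * A) k; omega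
      exact_mod_cast this
    · rw [mul_comm, ← Polynomial.smul_eq_C_mul]
      refine lt_of_le_of_lt (Polynomial.degree_smul_le _ _) (lt_of_lt_of_le hPdeg ?_)
      have : 2 * A + 1 ≤ L := by rw [hL]; have := le_max_left (2 * A) k; omega
      exact_mod_cast this
  have hWsum : ∑ f ∈ range (DD S * k + 1), (W f : (ZMod p)⟦X⟧) * EE p ^ f =
      (∑ a ∈ S, ∑ j ∈ range k, C (μ a j * (a : ZMod p) ^ (j + 1)) * X ^ (j + 1) *
      Polynomial.aeval (EE p) (Rp p S k a j)) - (P : (ZMod p)⟦X⟧) * Pe ^ k := by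
    have hWf : ∀ f, (W f : (ZMod p)⟦X⟧) = (∑ a ∈ S, ∑ j ∈ range k, C (μ a j * (a : ZMod p) ^ (j + 1)) * X ^ (j + 1) * C ((Rp p S k a j).coeff f)) -
        (P : (ZMod p)⟦X⟧) * C ((PI p S ^ k).coeff f) := by
      intro f
      have h7 : (W f : (ZMod p)⟦X⟧) = Polynomial.coeToPowerSeries.ringHom (W f) := rfl
      rw [h7, hW, map_sub, map_sum, map_mul]
      congr 1
      · refine sum_congr rfl fun a _ => ?_
        rw [map_sum]
        refine sum_congr rfl fun j _ => ?_
        rw [map_mul, map_pow]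
        simp only [Polynomial.coeToPowerSeries.ringHom_apply, Polynomial.coe_C, Polynomial.coe_X]
        rw [map_mul]; ring
      · simp
    have hRe : ∀ a ∈ S, ∀ j < k, Polynomial.aeval (EE p) (Rp p S k a j) = ∑ f ∈ range (DD S * k + 1), C ((Rp p S k a j).coeff f) * EE p ^ f := by
      intro a ha j hj
      rw [Polynomial.aeval_eq_sum_range' (Nat.lt_succ_of_le (Rp_deg S ha (hS a ha).1 hj)) (EE p)]
      refine sum_congr rfl fun f _ => ?_
      rw [PowerSeries.smul_eq_C_mul]
    have hPek : Pe ^ k = ∑ f ∈ range (DD S * k + 1), C ((PI p S ^ k).coeff f) * EE p ^ f := by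
      rw [hPe, ← map_pow, Polynomial.aeval_eq_sum_range' hPk (EE p)]
      refine sum_congr rfl fun f _ => ?_
      rw [PowerSeries.smul_eq_C_mul]
    have e1 : ∑ f ∈ range (DD S * k + 1), (W f : (ZMod p)⟦X⟧) * EE p ^ f =
        (∑ f ∈ range (DD S * k + 1), ∑ a ∈ S, ∑ j ∈ range k, C (μ a j * (a : ZMod p) ^ (j + 1)) * X ^ (j + 1) *
          (C ((Rp p S k a j).coeff f) * EE p ^ f)) -
        ∑ f ∈ range (DD S * k + 1), (P : (ZMod p)⟦X⟧) * (C ((PI p S ^ k).coeff f) * EE p ^ f) := by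
      rw [← sum_sub_distrib]
      refine sum_congr rfl fun f _ => ?_
      rw [hWf, sub_mul, sum_mul, mul_assoc]
      congr 1
      refine sum_congr rfl fun a _ => ?_
      rw [sum_mul]
      refine sum_congr rfl fun j _ => ?_
      ring
    rw [e1, ← mul_sum, ← hPek]
    congr 1
    rw [sum_comm]
    refine sum_congr rfl fun a ha => ?_
    rw [sum_comm]
    refine sum_congr rfl fun j hj => ?_
    rw [mem_range] at hj
    rw [← mul_sum, ← hRe a ha j hj]
  have hW0 : ∀ f ∈ range (DD S * k + 1), W f = 0 := by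
    refine ze (EE_deriv (p := p)) (by rw [EE_const]; exact one_ne_zero) L (by omega) (range (DD S * k + 1)) W ?_ (fun f _ => hWdeg f) ?_ ?_
    · intro x hx y hy hxy
      rw [mem_range] at hx hy
      rw [ZMod.natCast_eq_natCast_iff'] at hxy
      rwa [Nat.mod_eq_of_lt (by omega), Nat.mod_eq_of_lt (by omega)] at hxy
    · rw [card_range]; omega
    · rw [card_range, hWsum]; exact h2
  -- the coefficient of `X ^ (j + 1)`
  intro a ha j hj
  have h5 := Rp_indep h3 S hS hj (by omega) (fun a => μ a j * (a : ZMod p) ^ (j + 1)) (P.coeff (j + 1)) (by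
    ext f
    rw [Polynomial.finsetSum_coeff, Polynomial.coeff_C_mul]
    rcases Nat.lt_or_ge f (DD S * k + 1) with h | h
    · have h6 := congrArg (fun Q => Polynomial.coeff Q (j + 1)) (hW0 f (mem_range.2 h))
      simp only [hW, Polynomial.coeff_sub, Polynomial.finsetSum_coeff, Polynomial.coeff_zero, Polynomial.coeff_mul_C,
        Polynomial.coeff_C_mul, Polynomial.coeff_X_pow] at h6
      rw [sub_eq_zero] at h6
      rw [← h6]
      refine sum_congr rfl fun a _ => ?_
      rw [sum_eq_single_of_mem j (mem_range.2 hj), if_pos rfl, mul_one, Polynomial.coeff_C_mul]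
      intro i _ hij
      rw [if_neg (by omega), mul_zero]
    · rw [Polynomial.coeff_eq_zero_of_natDegree_lt (lt_of_lt_of_le hPk h), mul_zero]
      refine sum_eq_zero fun a ha => ?_
      rw [Polynomial.coeff_C_mul, Polynomial.coeff_eq_zero_of_natDegree_lt, mul_zero]
      exact lt_of_lt_of_le (Nat.lt_succ_of_le (Rp_deg S ha (hS a ha).1 hj)) h) a ha
  rcases mul_eq_zero.1 h5 with h6 | h6
  · exact h6
  · exact absurd h6 (pow_ne_zero _ (nat_ne_zero (hS a ha).1 (hS a ha).2))

/-- polynomials in the basis `∏ (2 x - 1 - t)` -/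
lemma basis_exp (h3 : 3 ≤ p) (k : ℕ) : ∀ (lam : Polynomial (ZMod p)), lam.degree < (k : WithBot ℕ) →
    ∃ μ : ℕ → ZMod p, lam = ∑ j ∈ range k, Polynomial.C (μ j) *
      ∏ t ∈ range j, (Polynomial.C 2 * Polynomial.X - Polynomial.C ((t : ZMod p) + 1)) := by
  induction k with
  | zero =>
    intro lam h
    refine ⟨fun _ => 0, ?_⟩
    have : lam = 0 := by
      rw [← Polynomial.degree_eq_bot]
      rw [Nat.cast_zero] at h
      by_contra h1
      rw [Polynomial.degree_eq_bot] at h1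
      have := Polynomial.zero_le_degree_iff.2 h1
      exact absurd h (not_lt.2 this)
    rw [this]; simp
  | succ k ih =>
    intro lam h
    set B : Polynomial (ZMod p) := ∏ t ∈ range k, (Polynomial.C 2 * Polynomial.X - Polynomial.C ((t : ZMod p) + 1)) with hB
    have hlin : ∀ t : ℕ, (Polynomial.C (2 : ZMod p) * Polynomial.X - Polynomial.C ((t : ZMod p) + 1)).natDegree = 1 := by
      intro t
      rw [sub_eq_add_neg, ← Polynomial.C_neg]
      exact Polynomial.natDegree_linear (two_ne h3)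
    have hlin2 : ∀ t : ℕ, (Polynomial.C (2 : ZMod p) * Polynomial.X - Polynomial.C ((t : ZMod p) + 1)).leadingCoeff = 2 := by
      intro t
      rw [sub_eq_add_neg, ← Polynomial.C_neg]
      exact Polynomial.leadingCoeff_linear (two_ne h3)
    have hBn : B.natDegree = k := by
      rw [hB, Polynomial.natDegree_prod]
      · rw [sum_congr rfl (fun t _ => hlin t)]; simp
      · intro t _ h0
        have := hlin t
        rw [h0] at this; simp at this
    have hBl : B.leadingCoeff = 2 ^ k := by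
      rw [hB, Polynomial.leadingCoeff_prod, prod_congr rfl (fun t _ => hlin2 t)]; simp
    set c := lam.coeff k * ((2 : ZMod p) ^ k)⁻¹ with hc
    have h2k : (2 : ZMod p) ^ k ≠ 0 := pow_ne_zero _ (two_ne h3)
    obtain ⟨μ, hμ⟩ := ih (lam - Polynomial.C c * B) (by
      rw [Polynomial.degree_lt_iff_coeff_zero]
      intro m hm
      rw [Polynomial.coeff_sub, Polynomial.coeff_C_mul]
      rcases Nat.eq_or_lt_of_le hm with h4 | h4
      · subst h4
        have : B.coeff k = 2 ^ k := by rw [← hBl, Polynomial.leadingCoeff, hBn]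
        rw [this, hc, mul_assoc, inv_mul_cancel₀ h2k, mul_one, sub_self]
      · have hB0 : B.coeff m = 0 := Polynomial.coeff_eq_zero_of_natDegree_lt (by rw [hBn]; exact h4)
        rw [hB0, (Polynomial.degree_lt_iff_coeff_zero _ _).1 h m h4]; ring)
    refine ⟨fun j => if j = k then c else μ j, ?_⟩
    rw [sum_range_succ]
    beta_reduce
    rw [if_pos rfl, ← hB]
    have : ∑ j ∈ range k, Polynomial.C (if j = k then c else μ j) *
        ∏ t ∈ range j, (Polynomial.C 2 * Polynomial.X - Polynomial.C ((t : ZMod p) + 1)) = lam - Polynomial.C c * B := by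
      rw [hμ]
      refine sum_congr rfl fun j hj => ?_
      rw [mem_range] at hj
      rw [if_neg (by omega)]
    rw [this]; ring

/-- The final form. -/
theorem expPoly (S : Finset ℕ) (hS : ∀ a ∈ S, 0 < a ∧ a < p) (k A : ℕ) (lam : ℕ → Polynomial (ZMod p))
    (hdeg : ∀ a ∈ S, (lam a).degree < (k : WithBot ℕ)) (hne : ∃ a ∈ S, lam a ≠ 0)
    (hTp : (DD S * k + 1) * (max (2 * A) k + 1) ≤ p) :
    ∃ i, A < i ∧ 2 * i + k + 1 ≤ (DD S * k + 1) * (max (2 * A) k + 1) ∧ ¬ ((p : ℤ) ∣ (bernoulli (2 * i)).num) ∧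
      ∑ a ∈ S, (lam a).eval (i : ZMod p) * (a : ZMod p) ^ (2 * i) ≠ 0 := by
  obtain ⟨a0, ha0, hlam0⟩ := hne
  have hk : 1 ≤ k := by
    rcases Nat.eq_zero_or_pos k with h | h
    · exfalso
      apply hlam0
      have := hdeg a0 ha0
      subst h
      rw [← Polynomial.degree_eq_bot]
      by_contra h1
      rw [Polynomial.degree_eq_bot] at h1
      exact absurd this (not_lt.2 (by rw [Nat.cast_zero]; exact Polynomial.zero_le_degree_iff.2 h1))
    · exact h
  have hDpos : 1 ≤ DD S := by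
    have h1 : (1 : ℕ) ∈ dv S := mem_biUnion.2 ⟨a0, ha0, Nat.one_mem_divisors.2 (by have := (hS a0 ha0).1; omega)⟩
    have := Finset.single_le_sum (f := fun n => Nat.totient n) (fun n _ => Nat.zero_le _) h1
    simpa [DD] using this
  set T := (DD S * k + 1) * (max (2 * A) k + 1) with hT
  have hm1 := le_max_left (2 * A) k
  have hm2 := le_max_right (2 * A) k
  have hT1 : 2 * (max (2 * A) k + 1) ≤ T := by
    rw [hT]; exact Nat.mul_le_mul_right _ (by nlinarith)
  have h3 : 3 ≤ p := by omega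
  have hodd : p % 2 = 1 := by
    rcases hp.out.eq_two_or_odd with h | h
    · omega
    · exact h
  set b := (T - 1 - k) / 2 with hb
  by_contra hcon
  push Not at hcon
  have hμ := fun a (ha : a ∈ S) => basis_exp h3 k (lam a) (hdeg a ha)
  choose! μ hμ using hμ
  have h0 := main_est h3 S hS ⟨a0, ha0⟩ k A b hk hTp (by omega) (by omega) μ (by
    intro i hi1 hi2
    by_cases hr : ((p : ℤ) ∣ (bernoulli (2 * i)).num)
    · have : coeff (2 * i) (g p) = 0 := by
        by_contra hg
        obtain ⟨i', hi', hr'⟩ := g_zero h3 (by omega) hg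
        have : i' = i := by omega
        subst this
        exact hr' hr
      rw [this, mul_zero]
    · have h1 := hcon i hi1 (by omega) hr
      have h2 : ∑ a ∈ S, ∑ j ∈ range k, μ a j * (a : ZMod p) ^ (2 * i) *
          (∏ t ∈ range j, (((2 * i : ℕ) : ZMod p) - ((t : ZMod p) + 1))) = ∑ a ∈ S, (lam a).eval (i : ZMod p) * (a : ZMod p) ^ (2 * i) := by
        refine sum_congr rfl fun a ha => ?_
        conv_rhs => rw [hμ a ha]
        rw [Polynomial.eval_finsetSum, sum_mul]
        refine sum_congr rfl fun j _ => ?_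
        rw [Polynomial.eval_mul, Polynomial.eval_C, Polynomial.eval_prod]
        have : ∏ t ∈ range j, Polynomial.eval (i : ZMod p) (Polynomial.C 2 * Polynomial.X - Polynomial.C ((t : ZMod p) + 1)) =
            ∏ t ∈ range j, (((2 * i : ℕ) : ZMod p) - ((t : ZMod p) + 1)) := by
          refine prod_congr rfl fun t _ => ?_
          rw [Polynomial.eval_sub, Polynomial.eval_mul, Polynomial.eval_C, Polynomial.eval_X, Polynomial.eval_C]
          push_cast; ring
        rw [this]; ring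
      rw [h2, h1, zero_mul])
  apply hlam0
  rw [hμ a0 ha0]
  refine sum_eq_zero fun j hj => ?_
  rw [mem_range] at hj
  rw [h0 a0 ha0 j hj, Polynomial.C_0, zero_mul]

end Pool.Agent.Z058
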